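import Mathlib

/-!
Half systems in a finite group with a central involution.
-/

set_option autoImplicit false

open Finset

namespace Pool.MP43e44c.NA

variable {G : Type*} [Group G] [Fintype G] [DecidableEq G]

/-- A half system for the involution `c`. -/
def IsHalf (c : G) (A : Finset G) : Prop := ∀ g, g ∈ A ↔ g * c ∉ A

/-- The sign function of a set. -/
def sgn (A : Finset G) (g : G) : ℤ := if g ∈ A then 1 else -1

theorem sgn_mul {c : G} {A : Finset G} (h : IsHalf c A) (g : G) :
    sgn A (g * c) = - sgn A g := by
  unfold sgn
  by_cases hg : g ∈ A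
  · rw [if_pos hg, if_neg ((h g).1 hg)]
  · rw [if_neg hg, if_pos (by by_contra h'; exact hg ((h g).2 h'))]; norm_num

end Pool.MP43e44c.NA
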