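import Pool.Agent.H.MP_43e44c_ag.NA.Lin

/-!
Half systems annihilated by two odd characters.
-/

set_option autoImplicit false

open Finset

namespace Pool.MP43e44c.NA

open Classical in
/-- The half systems annihilated by a character. -/
noncomputable def EC {G : Type*} [Group G] [Fintype G] (c : G) (χ : G →* ℂˣ) :
    Finset (Finset G) :=
  univ.filter fun A : Finset G => IsHalf c A ∧ ∑ g, (sgn A g : ℂ) * (χ g : ℂ) = 0

theorem pair_index_le {G : Type*} [Group G] [Fintype G] {χ : G →* ℂˣ} {m : ℕ} (hm0 : 0 < m)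
    (h1 : χ ^ m = 1) : χ.ker.index ≤ m := by
  haveI : NeZero m := ⟨hm0.ne'⟩
  rw [Subgroup.index_ker]
  have hle : χ.range ≤ rootsOfUnity m ℂ := by
    rintro x ⟨g, rfl⟩
    rw [mem_rootsOfUnity]
    have := DFunLike.congr_fun h1 g
    simpa using this
  have h2 : Nat.card χ.range ≤ Nat.card (rootsOfUnity m ℂ) :=
    Nat.card_le_card_of_injective (Subgroup.inclusion hle) (Subgroup.inclusion_injective hle)
  exact h2.trans (card_rootsOfUnity ℂ m)

theorem pair_card_ge {G : Type*} [Group G] [Fintype G] {n : ℕ}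
    (hn : Fintype.card G = 2 * n) {χ χ' : G →* ℂˣ} {m : ℕ} (hm0 : 0 < m)
    (h1 : χ ^ m = 1) (h1' : χ' ^ m = 1) :
    2 * n ≤ Nat.card (χ.ker ⊓ χ'.ker : Subgroup G) * (m * m) := by
  have h3 : (χ.ker ⊓ χ'.ker).index ≤ m * m :=
    (Subgroup.index_inf_le).trans (Nat.mul_le_mul (pair_index_le hm0 h1) (pair_index_le hm0 h1'))
  have h4 := (χ.ker ⊓ χ'.ker).card_mul_index
  rw [Nat.card_eq_fintype_card (α := G), hn] at h4
  calc 2 * n = Nat.card (χ.ker ⊓ χ'.ker : Subgroup G) * (χ.ker ⊓ χ'.ker).index := h4.symm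
    _ ≤ _ := Nat.mul_le_mul_left _ h3

theorem pair_re {G : Type*} [Group G] [Fintype G] [DecidableEq G] {A : Finset G} {χ : G →* ℂˣ}
    (h : ∑ g, (sgn A g : ℂ) * (χ g : ℂ) = 0) :
    ∑ g, (χ g : ℂ).re * (sgn A g : ℝ) = 0 := by
  have := congrArg Complex.re h
  rw [Complex.re_sum] at this
  simp only [Complex.zero_re] at this
  rw [← this]
  refine Finset.sum_congr rfl (fun g _ => ?_)
  simp [Complex.mul_re, mul_comm]

theorem pair_im {G : Type*} [Group G] [Fintype G] [DecidableEq G] {A : Finset G} {χ : G →* ℂˣ}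
    (h : ∑ g, (sgn A g : ℂ) * (χ g : ℂ) = 0) :
    ∑ g, (χ g : ℂ).im * (sgn A g : ℝ) = 0 := by
  have := congrArg Complex.im h
  rw [Complex.im_sum] at this
  simp only [Complex.zero_im] at this
  rw [← this]
  refine Finset.sum_congr rfl (fun g _ => ?_)
  simp [Complex.mul_im, mul_comm]

theorem pair_pos {G : Type*} [Group G] [Fintype G] {n : ℕ}
    (hn : Fintype.card G = 2 * n) : 0 < n := by
  have : 0 < Fintype.card G := Fintype.card_pos
  omega

theorem pair_notMem {G : Type*} [Group G] {c : G} {χ χ' : G →* ℂˣ} (hχ : χ c = -1) :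
    c ∉ χ.ker ⊓ χ'.ker := by
  intro h
  have h1 : χ c = 1 := (Subgroup.mem_inf.1 h).1
  rw [hχ] at h1
  have h2 := congrArg (fun z : ℂˣ => (z : ℂ)) h1
  simp only [Units.val_neg, Units.val_one] at h2
  have h3 := congrArg Complex.re h2
  norm_num at h3

/-- Two different odd quadratic characters.  Apply `card_lin_le` with `M = χ.ker ⊓ χ'.ker` (index at
most `4`, so `Nat.card M ≥ 2 n / 4`), `r = 2` and the real functions `χ`, `χ'` (values `±1`; linearly
independent by `linearIndependent_monoidHom` or because they differ and are not opposite).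
`maxProb_sq_le : maxProb k ^ 2 ≤ 1 / (k + 1)`. -/
theorem card_pair_one {G : Type*} [Group G] [Fintype G] [DecidableEq G] {c : G} (hc2 : c * c = 1)
    (hcen : ∀ g, g * c = c * g)
    {n : ℕ} (hn : Fintype.card G = 2 * n) {χ χ' : G →* ℂˣ} (hχ : χ c = -1) (hχ' : χ' c = -1)
    (h2 : χ ^ 2 = 1) (h2' : χ' ^ 2 = 1) (hne : χ.ker ≠ χ'.ker) :
    ((EC c χ ∩ EC c χ').card : ℝ) ≤ 2 / n * 2 ^ n := by
  rename_i instDG
  obtain rfl : instDG = fun a b => Classical.propDecidable (a = b) := Subsingleton.elim _ _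
  classical
  have hnpos := pair_pos hn
  set M : Subgroup G := χ.ker ⊓ χ'.ker with hM
  set u : Fin 2 → G → ℝ := ![fun g => (χ g : ℂ).re, fun g => (χ' g : ℂ).re] with hu
  have hval : ∀ {ψ : G →* ℂˣ}, ψ ^ 2 = 1 → ∀ g, g ∉ ψ.ker → (ψ g : ℂ).re = -1 := by
    intro ψ hψ g hg
    have h3 : (ψ g) ^ 2 = 1 := by simpa using DFunLike.congr_fun hψ g
    have h4 : ((ψ g : ℂ)) ^ 2 = 1 := by rw [← Units.val_pow_eq_pow_val, h3, Units.val_one]
    rcases sq_eq_one_iff.1 h4 with h | h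
    · exact absurd (Units.ext h) hg
    · rw [h]; simp
  have hval1 : ∀ {ψ : G →* ℂˣ} (g), g ∈ ψ.ker → (ψ g : ℂ).re = 1 := by
    intro ψ g hg
    rw [MonoidHom.mem_ker.1 hg]; simp
  have hli : LinearIndependent ℝ u := by
    rw [hu, LinearIndependent.pair_iff]
    intro s t hst
    have h1 := congrFun hst 1
    simp only [Pi.add_apply, Pi.smul_apply, smul_eq_mul, Pi.zero_apply, map_one, Units.val_one,
      Complex.one_re, mul_one] at h1
    obtain ⟨g, hg⟩ : ∃ g, (g ∈ χ.ker ∧ g ∉ χ'.ker) ∨ (g ∉ χ.ker ∧ g ∈ χ'.ker) := by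
      by_contra hcon
      push Not at hcon
      apply hne
      ext g
      have := hcon g
      tauto
    have h3 := congrFun hst g
    simp only [Pi.add_apply, Pi.smul_apply, smul_eq_mul, Pi.zero_apply] at h3
    rcases hg with ⟨ha, hb⟩ | ⟨ha, hb⟩
    · rw [hval1 g ha, hval h2' g hb] at h3
      constructor <;> linarith
    · rw [hval h2 g ha, hval1 g hb] at h3
      constructor <;> linarith
  have key := card_lin_le hc2 hcen M (pair_notMem hχ) hn u
    (by
      intro j g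
      fin_cases j <;> simp [hu, map_mul, hχ, hχ'])
    (by
      intro j g m hm
      have hm1 : χ m = 1 := (Subgroup.mem_inf.1 hm).1
      have hm2 : χ' m = 1 := (Subgroup.mem_inf.1 hm).2
      fin_cases j <;> simp [hu, map_mul, hm1, hm2])
    hli
  have hsub : (EC c χ ∩ EC c χ').card ≤
      (univ.filter fun A : Finset G => IsHalf c A ∧ ∀ j, ∑ g, u j g * (sgn A g : ℝ) = 0).card := by
    refine Finset.card_le_card (fun A hA => ?_)
    rw [Finset.mem_inter, EC, EC, Finset.mem_filter, Finset.mem_filter] at hA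
    rw [Finset.mem_filter]
    refine ⟨Finset.mem_univ _, hA.1.2.1, fun j => ?_⟩
    fin_cases j
    · exact pair_re hA.1.2.2
    · exact pair_re hA.2.2.2
  have hcard := pair_card_ge hn (by norm_num : 0 < 2) h2 h2'
  rw [← hM] at hcard
  have hcardR : (2 * n : ℝ) ≤ (Nat.card M : ℝ) * 4 := by exact_mod_cast hcard
  have hnR : (0 : ℝ) < n := by exact_mod_cast hnpos
  have hmp := Cy.maxProb_sq_le (Nat.card M)
  have hb : (1 : ℝ) / ((Nat.card M : ℝ) + 1) ≤ 2 / n := by
    rw [div_le_div_iff₀ (by positivity) hnR]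
    linarith
  calc ((EC c χ ∩ EC c χ').card : ℝ) ≤ _ := by exact_mod_cast hsub
    _ ≤ maxProb (Nat.card M) ^ 2 * 2 ^ n := key
    _ ≤ 2 / n * 2 ^ n := mul_le_mul_of_nonneg_right (hmp.trans hb) (by positivity)

theorem pair_conj {G : Type*} [Group G] {χ : G →* ℂˣ} {m : ℕ} (hm0 : 0 < m)
    (h1 : χ ^ m = 1) (g : G) : (starRingEnd ℂ) (χ g : ℂ) = ((χ⁻¹ : G →* ℂˣ) g : ℂ) := by
  have h3 : (χ g) ^ m = 1 := by simpa using DFunLike.congr_fun h1 g
  have h4 : ((χ g : ℂ)) ^ m = 1 := by rw [← Units.val_pow_eq_pow_val, h3, Units.val_one]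
  have h5 : ‖(χ g : ℂ)‖ = 1 := Complex.norm_eq_one_of_pow_eq_one h4 hm0.ne'
  rw [MonoidHom.inv_apply, Units.val_inv_eq_inv_val, Complex.inv_eq_conj h5]

theorem pair_ne_of_ker {G : Type*} [Group G] {χ χ' : G →* ℂˣ} (hne : χ.ker ≠ χ'.ker) :
    χ ≠ χ' := fun h => hne (by rw [h])

theorem pair_ker_inv {G : Type*} [Group G] (χ : G →* ℂˣ) : (χ⁻¹).ker = χ.ker := by
  ext g
  rw [MonoidHom.mem_ker, MonoidHom.mem_ker, MonoidHom.inv_apply, inv_eq_one]

/-- The complex function of a character. -/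
noncomputable def pairHom {G : Type*} [Group G] (χ : G →* ℂˣ) : G →* ℂ :=
  (Units.coeHom ℂ).comp χ

theorem pairHom_inj {G : Type*} [Group G] : Function.Injective (pairHom (G := G)) := by
  intro χ χ' h
  ext g
  have := DFunLike.congr_fun h g
  simpa [pairHom] using this

theorem pair_li {G : Type*} [Group G] [Fintype G] {χ χ' : G →* ℂˣ}
    {m : ℕ} (hm0 : 0 < m) (h1 : χ ^ m = 1) (h1' : χ' ^ m = 1)
    (h2 : χ ^ 2 ≠ 1) (h2' : χ' ^ 2 ≠ 1) (hne : χ.ker ≠ χ'.ker) :
    LinearIndependent ℝ (![fun g => (χ g : ℂ).re, fun g => (χ g : ℂ).im,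
      fun g => (χ' g : ℂ).re, fun g => (χ' g : ℂ).im] : Fin 4 → G → ℝ) := by
  have hd1 : χ ≠ χ⁻¹ := fun h => h2 (by rw [pow_two]; nth_rewrite 2 [h]; exact mul_inv_cancel χ)
  have hd2 : χ' ≠ χ'⁻¹ := fun h => h2' (by rw [pow_two]; nth_rewrite 2 [h]; exact mul_inv_cancel χ')
  have hd3 : χ ≠ χ' := pair_ne_of_ker hne
  have hd4 : χ ≠ χ'⁻¹ := pair_ne_of_ker (by rw [pair_ker_inv]; exact hne)
  have hd5 : χ⁻¹ ≠ χ' := pair_ne_of_ker (by rw [pair_ker_inv]; exact hne)
  have hd6 : χ⁻¹ ≠ χ'⁻¹ := pair_ne_of_ker (by rw [pair_ker_inv, pair_ker_inv]; exact hne)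
  have hinj : Function.Injective (![χ, χ⁻¹, χ', χ'⁻¹] : Fin 4 → (G →* ℂˣ)) := by
    intro i j hij
    fin_cases i <;> fin_cases j <;> simp_all
  have hL := (linearIndependent_monoidHom G ℂ).comp
    (fun i : Fin 4 => pairHom ((![χ, χ⁻¹, χ', χ'⁻¹] : Fin 4 → (G →* ℂˣ)) i))
    (pairHom_inj.comp hinj)
  rw [Fintype.linearIndependent_iff] at hL
  rw [Fintype.linearIndependent_iff]
  intro a ha
  have hz := hL ![(a 0 : ℂ) - a 1 * Complex.I, (a 0 : ℂ) + a 1 * Complex.I,
    (a 2 : ℂ) - a 3 * Complex.I, (a 2 : ℂ) + a 3 * Complex.I] (by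
      funext g
      have hg := congrFun ha g
      simp only [Fin.sum_univ_four, Pi.add_apply, Pi.smul_apply, smul_eq_mul, Pi.zero_apply,
        Matrix.cons_val_zero, Matrix.cons_val_one, Matrix.cons_val] at hg
      simp only [Fin.sum_univ_four, Pi.add_apply, Pi.smul_apply, smul_eq_mul, Pi.zero_apply,
        Matrix.cons_val_zero, Matrix.cons_val_one, Matrix.cons_val, Function.comp_apply, pairHom,
        MonoidHom.coe_comp, Units.coeHom_apply]
      rw [← pair_conj hm0 h1, ← pair_conj hm0 h1']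
      apply Complex.ext
      · simp
        linarith
      · simp
        ring)
  have e0 := hz 0
  have e2 := hz 2
  simp only [Matrix.cons_val_zero, Matrix.cons_val] at e0 e2
  have r0 := congrArg Complex.re e0
  have i0 := congrArg Complex.im e0
  have r2 := congrArg Complex.re e2
  have i2 := congrArg Complex.im e2
  simp at r0 i0 r2 i2
  intro i
  fin_cases i
  · exact r0
  · exact i0
  · exact r2
  · exact i2

/-- Two odd characters of order `4` or `6` (both of the same order `m`) with different kernels.  Apply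
`card_lin_le` with `M = χ.ker ⊓ χ'.ker` (index at most `36`), `r = 4` and the functions
`Re χ, Im χ, Re χ', Im χ'`.  They are linearly independent over `ℝ`: the four characters
`χ, χ⁻¹, χ', χ'⁻¹` are different (`χ ≠ χ⁻¹` as `χ ^ 2 ≠ 1`; the kernels differ) and hence linearly
independent over `ℂ` (`linearIndependent_monoidHom`), `χ⁻¹ g = conj (χ g)`, and
`α Re χ + β Im χ = ((α - i β) χ + (α + i β) χ⁻¹) / 2`.  `maxProb k ^ 4 ≤ 1 / (k + 1) ^ 2`,
`k ≥ 2 n / 36`. -/
theorem card_pair_two {G : Type*} [Group G] [Fintype G] [DecidableEq G] {c : G} (hc2 : c * c = 1)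
    (hcen : ∀ g, g * c = c * g)
    {n : ℕ} (hn : Fintype.card G = 2 * n) {χ χ' : G →* ℂˣ} (hχ : χ c = -1) (hχ' : χ' c = -1)
    {m : ℕ} (hm0 : 0 < m) (hm : m ≤ 6) (h1 : χ ^ m = 1) (h1' : χ' ^ m = 1)
    (h2 : χ ^ 2 ≠ 1) (h2' : χ' ^ 2 ≠ 1) (hne : χ.ker ≠ χ'.ker) :
    ((EC c χ ∩ EC c χ').card : ℝ) ≤ 324 / (n : ℝ) ^ 2 * 2 ^ n := by
  rename_i instDG
  obtain rfl : instDG = fun a b => Classical.propDecidable (a = b) := Subsingleton.elim _ _
  classical
  have hnpos := pair_pos hn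
  set M : Subgroup G := χ.ker ⊓ χ'.ker with hM
  set u : Fin 4 → G → ℝ := ![fun g => (χ g : ℂ).re, fun g => (χ g : ℂ).im,
      fun g => (χ' g : ℂ).re, fun g => (χ' g : ℂ).im] with hu
  have hli : LinearIndependent ℝ u := pair_li hm0 h1 h1' h2 h2' hne
  have key := card_lin_le hc2 hcen M (pair_notMem hχ) hn u
    (by
      intro j g
      fin_cases j <;> simp [hu, map_mul, hχ, hχ'])
    (by
      intro j g m hm
      have hm1 : χ m = 1 := (Subgroup.mem_inf.1 hm).1
      have hm2 : χ' m = 1 := (Subgroup.mem_inf.1 hm).2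
      fin_cases j <;> simp [hu, map_mul, hm1, hm2])
    hli
  have hsub : (EC c χ ∩ EC c χ').card ≤
      (univ.filter fun A : Finset G => IsHalf c A ∧ ∀ j, ∑ g, u j g * (sgn A g : ℝ) = 0).card := by
    refine Finset.card_le_card (fun A hA => ?_)
    rw [Finset.mem_inter, EC, EC, Finset.mem_filter, Finset.mem_filter] at hA
    rw [Finset.mem_filter]
    refine ⟨Finset.mem_univ _, hA.1.2.1, fun j => ?_⟩
    fin_cases j
    · exact pair_re hA.1.2.2
    · exact pair_im hA.1.2.2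
    · exact pair_re hA.2.2.2
    · exact pair_im hA.2.2.2
  have hcard := pair_card_ge hn hm0 h1 h1'
  rw [← hM] at hcard
  have hmm : m * m ≤ 36 := by nlinarith
  have hcard2 : 2 * n ≤ Nat.card M * 36 := hcard.trans (Nat.mul_le_mul_left _ hmm)
  have hcardR : (2 * n : ℝ) ≤ (Nat.card M : ℝ) * 36 := by exact_mod_cast hcard2
  have hnR : (0 : ℝ) < n := by exact_mod_cast hnpos
  have hmp := Cy.maxProb_sq_le (Nat.card M)
  have hb : (1 : ℝ) / ((Nat.card M : ℝ) + 1) ≤ 18 / n := by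
    rw [div_le_div_iff₀ (by positivity) hnR]
    linarith
  have hb2 : maxProb (Nat.card M) ^ 4 ≤ 324 / (n : ℝ) ^ 2 := by
    have h5 : maxProb (Nat.card M) ^ 2 ≤ 18 / n := hmp.trans hb
    calc maxProb (Nat.card M) ^ 4 = (maxProb (Nat.card M) ^ 2) ^ 2 := by ring
      _ ≤ (18 / (n : ℝ)) ^ 2 := pow_le_pow_left₀ (by positivity) h5 2
      _ = 324 / (n : ℝ) ^ 2 := by rw [div_pow]; norm_num
  calc ((EC c χ ∩ EC c χ').card : ℝ) ≤ _ := by exact_mod_cast hsub
    _ ≤ maxProb (Nat.card M) ^ 4 * 2 ^ n := key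
    _ ≤ 324 / (n : ℝ) ^ 2 * 2 ^ n := mul_le_mul_of_nonneg_right hb2 (by positivity)

end Pool.MP43e44c.NA
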