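import Pool.Agent.H.MP_43e44c_ag.EX.ExLat
import Pool.Agent.H.MP_43e44c_ag.EX.AbUp
import Pool.Agent.H.MP_43e44c_ag.AB.Dict
import Pool.Agent.H.MP_43e44c_ag.NA.Pair

/-!
Dictionary: a CM type of an abelian CM field whose half system is annihilated by an odd character of
order 2, 4 or 6 and has no symmetry has exotic Hodge classes.
-/

set_option autoImplicit false

open NumberField Finset Module

namespace Pool.MP43e44c.NA

variable {K : Type*} [Field K] [NumberField K] [IsCMField K] [IsGalois ℚ K]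

theorem index_eq (F : IntermediateField ℚ K) : F.fixingSubgroup.index = finrank ℚ F := by
  have h1 := Subgroup.card_mul_index F.fixingSubgroup
  rw [IsGalois.card_fixingSubgroup_eq_finrank, IsGalois.card_aut_eq_finrank,
    ← Module.finrank_mul_finrank ℚ F K, mul_comm (finrank ℚ F)] at h1
  exact Nat.eq_of_mul_eq_mul_left finrank_pos h1

/-- Data attached to a base embedding. -/
theorem exists_c (φ : K →+* ℂ) : ∃ c : K ≃ₐ[ℚ] K, c * c = 1 ∧ (∀ g, g * c = c * g) ∧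
    (∀ g, ComplexEmbedding.conjugate (tw φ g) = tw φ (g * c)) ∧
    (∀ ψ : K →+* ℂ, ComplexEmbedding.conjugate ψ = ψ.comp (c : K →+* K)) := by
  set c : K ≃ₐ[ℚ] K := (IsCMField.complexConj K).restrictScalars ℚ with hcdef
  have hcc : ∀ ψ : K →+* ℂ, ComplexEmbedding.conjugate ψ = ψ.comp (c : K →+* K) := by
    intro ψ
    ext x
    rw [hcdef]
    exact (IsCMField.complexEmbedding_complexConj K ψ x).symm
  have hc1 : ∀ g, ComplexEmbedding.conjugate (tw φ g) = tw φ (g * c) := by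
    intro g
    rw [hcc]
    rfl
  refine ⟨c, ?_, ?_, hc1, hcc⟩
  · apply (tw_bijective φ).1
    rw [← hc1]
    have h1 : tw φ c = ComplexEmbedding.conjugate φ := (hcc φ).symm
    rw [h1, conj_conj]
    rfl
  · intro g
    apply (tw_bijective φ).1
    rw [← hc1]
    have h1 : tw φ (c * g) = (ComplexEmbedding.conjugate φ).comp (g : K →+* K) := by
      rw [hcc]
      rfl
    rw [h1]
    rfl

/-- The half system of a CM type. -/
noncomputable def halfOf (φ : K →+* ℂ) (Φ : Finset (K →+* ℂ)) : Finset (K ≃ₐ[ℚ] K) := by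
  classical
  exact univ.filter fun g => tw φ g ∈ Φ

theorem mem_halfOf {φ : K →+* ℂ} {Φ : Finset (K →+* ℂ)} {g : K ≃ₐ[ℚ] K} :
    g ∈ halfOf φ Φ ↔ tw φ g ∈ Φ := by
  classical
  simp [halfOf]

theorem isHalf_iff {φ : K →+* ℂ} {c : K ≃ₐ[ℚ] K}
    (hc : ∀ g, ComplexEmbedding.conjugate (tw φ g) = tw φ (g * c)) (Φ : Finset (K →+* ℂ)) :
    IsHalf c (halfOf φ Φ) ↔ IsCMType Φ := by
  unfold IsHalf IsCMType
  simp only [mem_halfOf, ← hc]
  constructor
  · intro h ψ
    obtain ⟨g, rfl⟩ := (tw_bijective φ).2 ψ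
    exact h g
  · intro h g
    exact h _


open Classical in
/-- A CM type whose half system is annihilated by an odd character of order 2, 4 or 6 and has no
symmetries is exotic. -/
theorem exotic_of_char {φ : K →+* ℂ} {c : K ≃ₐ[ℚ] K} (hc2 : c * c = 1)
    (hc : ∀ g, ComplexEmbedding.conjugate (tw φ g) = tw φ (g * c))
    {Φ : Finset (K →+* ℂ)} (hΦ : IsCMType Φ)
    (hsym : ∀ h : K ≃ₐ[ℚ] K, (∀ x, x ∈ halfOf φ Φ ↔ x * h ∉ halfOf φ Φ) → h = c)
    {χ : (K ≃ₐ[ℚ] K) →* ℂˣ} (hχ : χ c = -1) (h46 : χ ^ 4 = 1 ∨ χ ^ 6 = 1)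
    (h0 : ∑ g, (sgn (halfOf φ Φ) g : ℂ) * (χ g : ℂ) = 0) :
    ¬ HodgeRingGeneratedByDivisors Φ := by
  -- primitivity
  have hprim : ∀ ψ ψ' : K →+* ℂ, Perp Φ ψ ψ' → ψ' = ComplexEmbedding.conjugate ψ := by
    intro ψ ψ' hp
    obtain ⟨g, rfl⟩ := (tw_bijective φ).2 ψ
    obtain ⟨g', rfl⟩ := (tw_bijective φ).2 ψ'
    rw [hc]
    have h1 : g⁻¹ * g' = c := by
      apply hsym
      intro x
      obtain ⟨σ, hσ⟩ := exists_smul_eq φ (tw φ (x * g⁻¹))
      have h2 := hp σ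
      rw [tw_smul hσ, tw_smul hσ, ← mem_halfOf, ← mem_halfOf, inv_mul_cancel_right] at h2
      rw [h2, mul_assoc]
    rw [← h1, mul_inv_cancel_left]
  -- the integral function
  have hval : ∀ g : K ≃ₐ[ℚ] K, ∃ m : ℤ, (m : ℝ) = 2 * ((χ g : ℂˣ) : ℂ).re := by
    intro g
    apply two_re_int
    rcases h46 with h | h
    · left
      rw [← Units.val_pow_eq_pow_val, ← MonoidHom.pow_apply, h]
      rfl
    · right
      rw [← Units.val_pow_eq_pow_val, ← MonoidHom.pow_apply, h]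
      rfl
  choose F hF using hval
  let e : (K ≃ₐ[ℚ] K) ≃ (K →+* ℂ) := Equiv.ofBijective (tw φ) (tw_bijective φ)
  have he : ∀ g, e.symm (tw φ g) = g := fun g => e.symm_apply_apply g
  have hF2 : ∀ g h : K ≃ₐ[ℚ] K, (F (g * h) : ℝ)
      = 2 * (((χ g : ℂˣ) : ℂ) * ((χ h : ℂˣ) : ℂ)).re := by
    intro g h
    rw [hF, map_mul, Units.val_mul]
  refine not_generated_of_lat hΦ hprim (f := fun ψ => F (e.symm ψ)) ⟨?_, ?_⟩ ?_
  · intro ψ
    obtain ⟨g, rfl⟩ := (tw_bijective φ).2 ψ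
    show F (e.symm (ComplexEmbedding.conjugate (tw φ g))) = - F (e.symm (tw φ g))
    rw [hc, he, he]
    have h1 : (F (g * c) : ℝ) = ((- F g : ℤ) : ℝ) := by
      rw [hF2, hχ]
      push_cast
      rw [hF g]
      simp
    exact_mod_cast h1
  · intro σ
    obtain ⟨x, hx⟩ := (tw_bijective φ).2 (σ • φ)
    have h1 : ∑ ψ, F (e.symm ψ) * sg Φ (σ • ψ)
        = ∑ g : K ≃ₐ[ℚ] K, F (x⁻¹ * g) * sgn (halfOf φ Φ) g := by
      rw [← Equiv.sum_comp e, ← Equiv.sum_comp (Equiv.mulLeft x)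
        (fun g => F (x⁻¹ * g) * sgn (halfOf φ Φ) g)]
      refine Finset.sum_congr rfl fun g _ => ?_
      have h2 : e g = tw φ g := rfl
      rw [h2, he, tw_smul hx.symm, Equiv.coe_mulLeft, inv_mul_cancel_left]
      congr 1
      unfold sg sgn
      simp only [mem_halfOf]
    rw [h1]
    have h2 : ((∑ g : K ≃ₐ[ℚ] K, F (x⁻¹ * g) * sgn (halfOf φ Φ) g : ℤ) : ℝ)
        = 2 * (((χ x⁻¹ : ℂˣ) : ℂ) *
          ∑ g : K ≃ₐ[ℚ] K, (sgn (halfOf φ Φ) g : ℂ) * ((χ g : ℂˣ) : ℂ)).re := by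
      rw [Finset.mul_sum, Complex.re_sum, Finset.mul_sum]
      push_cast
      refine Finset.sum_congr rfl fun g _ => ?_
      rw [hF2]
      have h3 : (((χ x⁻¹ : ℂˣ) : ℂ) * ((sgn (halfOf φ Φ) g : ℂ) * ((χ g : ℂˣ) : ℂ))).re
          = (sgn (halfOf φ Φ) g : ℝ) * (((χ x⁻¹ : ℂˣ) : ℂ) * ((χ g : ℂˣ) : ℂ)).re := by
        rw [← Complex.re_ofReal_mul]
        congr 1
        push_cast
        ring
      rw [h3]
      ring
    have h4 : ∑ g : K ≃ₐ[ℚ] K, (sgn (halfOf φ Φ) g : ℂ) * ((χ g : ℂˣ) : ℂ) = 0 := by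
      rw [← h0]
    rw [h4, mul_zero, Complex.zero_re, mul_zero] at h2
    exact_mod_cast h2
  · intro hcon
    have h1 := congrFun hcon (tw φ 1)
    simp only [he, Pi.zero_apply] at h1
    have h2 := hF 1
    rw [h1] at h2
    simp at h2

/-- A cyclic subfield is the fixed field of the kernel of a character. -/
theorem exists_char_field (F : IntermediateField ℚ K) [IsGalois ℚ F] (hcyc : IsCyclic (F ≃ₐ[ℚ] F))
    (him : ∃ x ∈ F, ∃ φ : K →+* ℂ, (φ x).im ≠ 0) {φ : K →+* ℂ} {c : K ≃ₐ[ℚ] K} (hc2 : c * c = 1)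
    (hc' : ∀ ψ : K →+* ℂ, ComplexEmbedding.conjugate ψ = ψ.comp (c : K →+* K)) :
    ∃ χ : (K ≃ₐ[ℚ] K) →* ℂˣ, χ.ker = F.fixingSubgroup ∧ χ c = -1 ∧ χ ^ (finrank ℚ F) = 1 ∧
      (2 < finrank ℚ F → χ ^ 2 ≠ 1) := by
  have hnorm : F.fixingSubgroup.Normal := by
    have e : (DivisionRing.toRatAlgebra : Algebra ℚ F) = F.algebra' := Subsingleton.elim _ _
    have h1 : @IsGalois ℚ _ F _ F.algebra' := by
      rw [← e]
      infer_instance
    exact @IsGalois.fixingSubgroup_normal_of_isGalois ℚ K _ _ _ F _ h1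
  obtain ⟨N, hNn, rfl⟩ : ∃ N : Subgroup (K ≃ₐ[ℚ] K), N.Normal ∧
      IntermediateField.fixedField N = F :=
    ⟨F.fixingSubgroup, hnorm, IsGalois.fixedField_fixingSubgroup F⟩
  have hN : IsCyclic ((K ≃ₐ[ℚ] K) ⧸ N) :=
    (MulEquiv.isCyclic (IsGalois.normalAutEquivQuotient N)).2 hcyc
  have hm : N.index ≠ 0 := Subgroup.index_ne_zero_of_finite
  haveI : NeZero N.index := ⟨hm⟩
  have h3 : Nat.card ((K ≃ₐ[ℚ] K) ⧸ N) = Nat.card (rootsOfUnity N.index ℂ) := by
    rw [← Subgroup.index_eq_card, Complex.card_rootsOfUnity]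
  let e := mulEquivOfCyclicCardEq h3
  set χ : (K ≃ₐ[ℚ] K) →* ℂˣ :=
    (rootsOfUnity N.index ℂ).subtype.comp (e.toMonoidHom.comp (QuotientGroup.mk' N)) with hχdef
  have hker : χ.ker = N := by
    ext g
    rw [MonoidHom.mem_ker, hχdef, MonoidHom.comp_apply, MonoidHom.comp_apply]
    constructor
    · intro h
      have h4 : e (QuotientGroup.mk' N g) = 1 := Subtype.ext h
      rw [map_eq_one_iff e e.injective] at h4
      simpa using h4
    · intro h
      have h4 : QuotientGroup.mk' N g = 1 := by simpa using h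
      rw [h4]
      simp
  have hidx : N.index = finrank ℚ (IntermediateField.fixedField N) := by
    rw [← index_eq, IntermediateField.fixingSubgroup_fixedField]
  have hcN : c ∉ N := by
    intro h2
    obtain ⟨x, hx, ψ, hψ⟩ := him
    rw [← IntermediateField.fixingSubgroup_fixedField N,
      IntermediateField.mem_fixingSubgroup_iff] at h2
    apply hψ
    rw [← Complex.conj_eq_iff_im]
    have h3 : ψ (c x) = (ComplexEmbedding.conjugate ψ) x := by rw [hc' ψ]; rfl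
    have h4 : c x = x := h2 x hx
    rw [h4] at h3
    exact h3.symm
  refine ⟨χ, ?_, ?_, ?_, ?_⟩
  · rw [hker, IntermediateField.fixingSubgroup_fixedField]
  · have h4 : χ c * χ c = 1 := by rw [← map_mul, hc2, map_one]
    have h5 : ((χ c : ℂˣ) : ℂ) * ((χ c : ℂˣ) : ℂ) = 1 := by
      rw [← Units.val_mul, h4, Units.val_one]
    rcases mul_self_eq_one_iff.1 h5 with h | h
    · exfalso
      apply hcN
      rw [← hker, MonoidHom.mem_ker]
      exact Units.ext h
    · exact Units.ext (by rw [h]; simp)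
  · ext g
    rw [MonoidHom.pow_apply, MonoidHom.one_apply, ← hidx]
    have h4 : (e (QuotientGroup.mk' N g) : ℂˣ) ^ N.index = 1 :=
      (mem_rootsOfUnity _ _).1 (e (QuotientGroup.mk' N g)).2
    have h5 : χ g = (e (QuotientGroup.mk' N g) : ℂˣ) := rfl
    rw [h5, h4]
  · intro h2 hcon
    obtain ⟨q, hq⟩ := IsCyclic.exists_generator (α := (K ≃ₐ[ℚ] K) ⧸ N)
    obtain ⟨t, rfl⟩ := QuotientGroup.mk_surjective q
    have hord : orderOf (t : (K ≃ₐ[ℚ] K) ⧸ N) = N.index := by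
      rw [orderOf_eq_card_of_forall_mem_zpowers hq, Subgroup.index_eq_card]
    have h4 : t ^ 2 ∈ χ.ker := by
      rw [MonoidHom.mem_ker, map_pow, ← MonoidHom.pow_apply, hcon, MonoidHom.one_apply]
    rw [hker] at h4
    have h5 : (t : (K ≃ₐ[ℚ] K) ⧸ N) ^ 2 = 1 := by
      rw [← QuotientGroup.mk_pow, QuotientGroup.eq_one_iff]
      exact h4
    have h6 := orderOf_dvd_of_pow_eq_one h5
    have h7 := Nat.le_of_dvd (by norm_num) h6
    rw [hord, hidx] at h7
    omega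

end Pool.MP43e44c.NA
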