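import Pool.Agent.H.MP_43e44c_ag.AB.LowN
import Pool.Agent.H.MP_43e44c_ag.NA.Pair

/-!
Lower bounds for the number of half systems annihilated by an odd character of order 2, 4 or 6.
-/

set_option autoImplicit false

open Finset

namespace Pool.MP43e44c.NA

theorem isCyclic_quot {G : Type*} [Group G] [Fintype G] (χ : G →* ℂˣ) :
    IsCyclic (G ⧸ χ.ker) := by
  have hfin : Finite χ.range := by
    have : Finite (Set.range χ) := Set.toFinite _
    exact this
  have : IsCyclic χ.range := inferInstance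
  exact isCyclic_of_surjective (QuotientGroup.quotientKerEquivRange χ).symm
    (QuotientGroup.quotientKerEquivRange χ).symm.surjective

/-- A set of families with vanishing sums gives a lower bound. -/
theorem card_le_EC {G : Type*} [Group G] [Fintype G] [DecidableEq G] {c : G} (hc2 : c * c = 1)
    (hcen : ∀ g, g * c = c * g)
    {χ : G →* ℂˣ} (hχ : χ c = -1) {t : G} {h : ℕ} 
    (hb : Function.Bijective (param c χ.ker t h))
    (S : Finset (Fin h → Finset χ.ker))
    (hS : ∀ a ∈ S, ∑ i : Fin h, ((2 * (a i).card : ℤ) - (Nat.card χ.ker : ℤ) : ℤ)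
          * (χ t : ℂ) ^ (i : ℕ) = 0) :
    S.card ≤ (EC c χ).card := by
  classical
  have hex : ∀ a : Fin h → Finset χ.ker, ∃ A : Finset G, IsHalf c A ∧ fam χ.ker t h A = a :=
    fun a => fam_surj hc2 χ.ker t h hb a
  choose f hf1 hf2 using hex
  refine Finset.card_le_card_of_injOn f ?_ ?_
  · intro a ha
    have ha' := hS a (mem_coe.1 ha)
    apply mem_coe.2
    unfold EC
    rw [mem_filter]
    refine ⟨mem_univ _, hf1 a, ?_⟩
    have h1 := sum_char χ.ker t h hb (hf1 a) χ rfl hχ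
    rw [hf2 a, ha', mul_zero] at h1
    rw [← h1]
    refine Finset.sum_congr rfl fun g _ => ?_
    have h2 : ∀ i1 i2 : DecidableEq G, @sgn G i1 (f a) g = @sgn G i2 (f a) g := fun i1 i2 => by
      rw [Subsingleton.elim i1 i2]
    rw [h2]
  · intro a _ b _ hab
    rw [← hf2 a, ← hf2 b, hab]

/-- The basic data of an odd character. -/
theorem odd_data {G : Type*} [Group G] [Fintype G] [DecidableEq G] {c : G} (hc2 : c * c = 1)
    (hcen : ∀ g, g * c = c * g)
    {n : ℕ} (hn : Fintype.card G = 2 * n) {χ : G →* ℂˣ} (hχ : χ c = -1) {m : ℕ} (hm : χ ^ m = 1) :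
    ∃ (t : G) (h : ℕ), 0 < h ∧ 2 * h ∣ m ∧ Function.Bijective (param c χ.ker t h) ∧
      (∀ j : ℕ, (χ t) ^ j = 1 ↔ 2 * h ∣ j) ∧ (χ t) ^ h = -1 ∧ Nat.card χ.ker * h = n ∧
      (χ ^ (2 * h) = 1) := by
  classical
  have hcyc := isCyclic_quot χ
  have hcN : c ∉ χ.ker := by
    intro h1
    have h2 : χ c = 1 := h1
    rw [hχ] at h2
    have h3 := congrArg Units.val h2
    simp only [Units.val_neg, Units.val_one] at h3
    norm_num at h3
  obtain ⟨t, h, hidx, hh, hpow, hrep, htc⟩ := exists_gen hc2 hcen χ.ker hcN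
  have hb := param_bijective hcen χ.ker t h hidx hpow hrep htc
  have hroot : ∀ j : ℕ, (χ t) ^ j = 1 ↔ 2 * h ∣ j := by
    intro j
    rw [← hidx, ← hpow j, MonoidHom.mem_ker, map_pow]
  refine ⟨t, h, hh, ?_, hb, hroot, ?_, ?_, ?_⟩
  · rw [← hroot m]
    have := congrArg (fun f : G →* ℂˣ => f t) hm
    simpa using this
  · have h1 : χ ((t ^ h)⁻¹ * c) = 1 := htc
    rw [map_mul, map_inv, map_pow, hχ, inv_mul_eq_one] at h1
    exact h1
  · have h1 := χ.ker.card_mul_index
    rw [hidx, Nat.card_eq_fintype_card (α := G), hn] at h1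
    have : 2 * (Nat.card χ.ker * h) = 2 * n := by rw [← h1]; ring
    omega
  · ext g
    obtain ⟨j, hj, hjN⟩ := hrep g
    have h1 : χ ((t ^ j)⁻¹ * g) = 1 := hjN
    rw [map_mul, map_inv, map_pow, inv_mul_eq_one] at h1
    have h2 : (χ t) ^ (2 * h) = 1 := (hroot _).2 dvd_rfl
    have h3 : χ g ^ (2 * h) = 1 := by
      rw [← h1, ← pow_mul, mul_comm j, pow_mul, h2, one_pow]
    simp only [MonoidHom.pow_apply, h3, MonoidHom.one_apply]

/-- `χ` odd of order two, `n` even.  `N = χ.ker` has index `2`, `c ∉ N`, `G = N ∪ N c`: a half system is given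
by `A ∩ N` (any subset of `N`; `fam_surj`, `fam_injOn` in `Grp.lean` with `h = 1`) and
`∑ sgn A g χ g = 2 (2 |A ∩ N| - n)`.  So the number is `n.choose (n / 2) ≥ 2 ^ n / (2 √n)`
(`Nat.four_pow_le_two_mul_self_mul_centralBinom` or similar). -/
theorem low_two {G : Type*} [Group G] [Fintype G] [DecidableEq G] {c : G} (hc2 : c * c = 1)
    (hcen : ∀ g, g * c = c * g)
    {n : ℕ} (hn : Fintype.card G = 2 * n) (hn0 : 0 < n) (he : Even n) {χ : G →* ℂˣ}
    (hχ : χ c = -1) (h2 : χ ^ 2 = 1) :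
    2 ^ n / (2 * Real.sqrt n) ≤ ((EC c χ).card : ℝ) := by
  classical
  obtain ⟨t, h, hh, hdvd, hb, hroot, hth, hcard, -⟩ := odd_data hc2 hcen hn hχ h2
  have hh1 : h = 1 := by
    have := Nat.le_of_dvd (by norm_num) hdvd
    omega
  subst hh1
  rw [mul_one] at hcard
  obtain ⟨m, hm⟩ := he
  have hm1 : 1 ≤ m := by omega
  set S : Finset (Fin 1 → Finset χ.ker) :=
    Fintype.piFinset fun _ : Fin 1 => (univ : Finset χ.ker).powersetCard m with hS
  have hScard : S.card = n.choose m := by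
    rw [hS, Fintype.card_piFinset]
    simp only [Finset.card_powersetCard, Finset.prod_const, Finset.card_univ, Fintype.card_fin,
      pow_one]
    rw [← Nat.card_eq_fintype_card, hcard]
  have h1 := card_le_EC hc2 hcen hχ hb S (by
    intro a ha
    rw [hS, Fintype.mem_piFinset] at ha
    refine Finset.sum_eq_zero fun i _ => ?_
    have h3 := (Finset.mem_powersetCard.1 (ha i)).2
    rw [h3, hcard, hm]
    push_cast; ring)
  rw [hScard] at h1
  have h4 : n.choose m = Nat.centralBinom m := by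
    rw [Nat.centralBinom, hm, two_mul]
  rw [h4] at h1
  have h5 := four_pow_le_centralBinom_sq m hm1
  have h6 : ((2 : ℝ) ^ n) ^ 2 ≤ (2 * Real.sqrt n * (Nat.centralBinom m : ℝ)) ^ 2 := by
    have h7 : ((2 : ℝ) ^ n) ^ 2 = 16 ^ m := by
      rw [hm, ← two_mul, ← pow_mul, mul_comm, ← mul_assoc, pow_mul]; norm_num
    rw [h7, mul_pow, mul_pow, Real.sq_sqrt (by positivity)]
    have h8 : ((16 : ℝ) ^ m) ≤ 4 * m * (Nat.centralBinom m : ℝ) ^ 2 := by exact_mod_cast h5
    refine h8.trans ?_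
    have h9 : (m : ℝ) ≤ n := by
      rw [hm]; push_cast; have : (0 : ℝ) ≤ m := by positivity
      linarith
    have h10 : (0 : ℝ) ≤ (Nat.centralBinom m : ℝ) ^ 2 := by positivity
    have h11 : 4 * (m : ℝ) ≤ 2 ^ 2 * n := by linarith
    exact mul_le_mul_of_nonneg_right h11 h10
  have h12 : (2 : ℝ) ^ n ≤ 2 * Real.sqrt n * (Nat.centralBinom m : ℝ) :=
    (pow_le_pow_iff_left₀ (by positivity) (by positivity) (by norm_num)).1 h6
  have hsq : 0 < Real.sqrt n := Real.sqrt_pos.2 (by exact_mod_cast hn0)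
  rw [div_le_iff₀ (by positivity)]
  have h13 : (Nat.centralBinom m : ℝ) ≤ ((EC c χ).card : ℝ) := by exact_mod_cast h1
  calc (2 : ℝ) ^ n ≤ 2 * Real.sqrt n * (Nat.centralBinom m : ℝ) := h12
    _ ≤ 2 * Real.sqrt n * ((EC c χ).card : ℝ) := by
        apply mul_le_mul_of_nonneg_left h13; positivity
    _ = _ := by ring

/-- `χ` odd of order four, `4 ∣ n`.  `N = χ.ker` has index `4` and `n / 2` elements; with `χ t = ± i`,
`G = N ∪ N t ∪ N c ∪ N t c`; a half system is given by two arbitrary subsets of `N` and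
`∑ sgn A g χ g = 2 (b₀ ± i b₁)`, `b_j = 2 |a_j| - n / 2`.  So the number is
`((n / 2).choose (n / 4)) ^ 2`. -/
theorem low_four {G : Type*} [Group G] [Fintype G] [DecidableEq G] {c : G} (hc2 : c * c = 1)
    (hcen : ∀ g, g * c = c * g)
    {n : ℕ} (hn : Fintype.card G = 2 * n) (hn0 : 0 < n) (he : 4 ∣ n) {χ : G →* ℂˣ}
    (hχ : χ c = -1) (h4 : χ ^ 4 = 1) (h2 : χ ^ 2 ≠ 1) :
    2 ^ n / (2 * n) ≤ ((EC c χ).card : ℝ) := by
  classical
  obtain ⟨t, h, hh, hdvd, hb, hroot, hth, hcard, hone⟩ := odd_data hc2 hcen hn hχ h4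
  have hh2 : h = 2 := by
    have h1 : h ≠ 1 := by
      rintro rfl; exact h2 hone
    have h3 := Nat.le_of_dvd (by norm_num) hdvd
    omega
  subst hh2
  obtain ⟨m, hm⟩ := he
  have hm1 : 1 ≤ m := by omega
  have hk : Nat.card χ.ker = 2 * m := by omega
  set S : Finset (Fin 2 → Finset χ.ker) :=
    Fintype.piFinset fun _ : Fin 2 => (univ : Finset χ.ker).powersetCard m with hS
  have hScard : S.card = (Nat.centralBinom m) ^ 2 := by
    rw [hS, Fintype.card_piFinset]
    simp only [Finset.card_powersetCard, Finset.prod_const, Finset.card_univ, Fintype.card_fin]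
    rw [← Nat.card_eq_fintype_card, hk, Nat.centralBinom]
  have h1 := card_le_EC hc2 hcen hχ hb S (by
    intro a ha
    rw [hS, Fintype.mem_piFinset] at ha
    refine Finset.sum_eq_zero fun i _ => ?_
    have h3 := (Finset.mem_powersetCard.1 (ha i)).2
    rw [h3, hk]
    push_cast; ring)
  rw [hScard] at h1
  have h5 := four_pow_le_centralBinom_sq m hm1
  have h13 : ((Nat.centralBinom m : ℝ)) ^ 2 ≤ ((EC c χ).card : ℝ) := by exact_mod_cast h1
  have h8 : ((16 : ℝ) ^ m) ≤ 4 * m * (Nat.centralBinom m : ℝ) ^ 2 := by exact_mod_cast h5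
  have h7 : (2 : ℝ) ^ n = 16 ^ m := by
    rw [hm, pow_mul]; norm_num
  have hn' : (n : ℝ) = 4 * m := by rw [hm]; push_cast; ring
  have hm' : (0 : ℝ) < m := by exact_mod_cast hm1
  rw [div_le_iff₀ (by rw [hn']; positivity), h7, hn']
  calc ((16 : ℝ) ^ m) ≤ 4 * m * (Nat.centralBinom m : ℝ) ^ 2 := h8
    _ ≤ 4 * m * ((EC c χ).card : ℝ) := by
        apply mul_le_mul_of_nonneg_left h13; positivity
    _ ≤ ((EC c χ).card : ℝ) * (2 * (4 * m)) := by
        have : (0 : ℝ) ≤ ((EC c χ).card : ℝ) := by positivity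
        nlinarith

/-- `χ` odd of order six (`χ ^ 6 = 1`, `χ ^ 2 ≠ 1`; `χ c = -1`).  `N = χ.ker` has index `6` and `k = n / 3`
elements (`3 ∣ n`); with `ζ = χ t` a primitive sixth root of unity, `ζ ^ 2 = ζ - 1`, a half system is
given by three arbitrary subsets `a₀, a₁, a₂` of `N` and
`∑ sgn A g χ g = 2 (b₀ + b₁ ζ + b₂ ζ²)`, `b_j = 2 |a_j| - k`, which vanishes if `|a₀| = |a₂| = k - |a₁|`.
So the number is at least `∑ j, k.choose j ^ 3 ≥ (∑ j, k.choose j ^ 2) ^ 2 / ∑ j, k.choose j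
= (2k).choose k ^ 2 / 2 ^ k` (Cauchy-Schwarz, `inner_mul_le_norm_mul_norm`/`sum_mul_sq_le_sq_mul_sq`,
`Nat.sum_range_choose_sq...`) and `(2k).choose k ≥ 4 ^ k / (2 √k)`. -/
theorem low_six {G : Type*} [Group G] [Fintype G] [DecidableEq G] {c : G} (hc2 : c * c = 1)
    (hcen : ∀ g, g * c = c * g)
    {n : ℕ} (hn : Fintype.card G = 2 * n) (hn0 : 0 < n) {χ : G →* ℂˣ}
    (hχ : χ c = -1) (h6 : χ ^ 6 = 1) (h2 : χ ^ 2 ≠ 1) :
    2 ^ n / (2 * n) ≤ ((EC c χ).card : ℝ) := by
  classical
  obtain ⟨t, h, hh, hdvd, hb, hroot, hth, hcard, hone⟩ := odd_data hc2 hcen hn hχ h6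
  have hh3 : h = 3 := by
    have h1 : h ≠ 1 := by
      rintro rfl; exact h2 hone
    have h3 : h ∣ 3 := by
      have : 2 * h ∣ 2 * 3 := hdvd
      exact Nat.dvd_of_mul_dvd_mul_left (by norm_num) this
    exact ((Nat.Prime.eq_one_or_self_of_dvd Nat.prime_three h h3).resolve_left h1)
  subst hh3
  set k := Nat.card χ.ker with hk
  have hk1 : 1 ≤ k := by
    rcases Nat.eq_zero_or_pos k with h0 | h0
    · rw [h0] at hcard; omega
    · exact h0
  have hkF : Fintype.card χ.ker = k := by rw [hk, Nat.card_eq_fintype_card]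
  -- the root
  set ζ : ℂ := (χ t : ℂ) with hζ
  have hz3 : ζ ^ 3 = -1 := by
    have := congrArg Units.val hth
    simpa [hζ] using this
  have hz2 : ζ + 1 ≠ 0 := by
    intro h0
    have h1 : ζ ^ 2 = 1 := by
      have : ζ = -1 := by linear_combination h0
      rw [this]; norm_num
    have h3 : (χ t) ^ 2 = 1 := by
      apply Units.ext
      simpa [hζ] using h1
    have := (hroot 2).1 h3
    omega
  have hz : ζ ^ 2 = ζ - 1 := by
    have h1 : (ζ + 1) * (ζ ^ 2 - ζ + 1) = 0 := by linear_combination hz3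
    have h3 := (mul_eq_zero.1 h1).resolve_left hz2
    linear_combination h3
  -- the families
  set S : Finset (Fin 3 → Finset χ.ker) := (Finset.range (k + 1)).biUnion fun j =>
    Fintype.piFinset fun i : Fin 3 =>
      (univ : Finset χ.ker).powersetCard (if i = 1 then k - j else j) with hS
  have hScard : S.card = ∑ j ∈ Finset.range (k + 1), (k.choose j) ^ 3 := by
    rw [hS, Finset.card_biUnion]
    · refine Finset.sum_congr rfl fun j hj => ?_
      have hj' : j ≤ k := by have := Finset.mem_range.1 hj; omega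
      rw [Fintype.card_piFinset, Fin.prod_univ_three]
      simp only [Finset.card_powersetCard, Finset.card_univ, hkF]
      have e0 : (0 : Fin 3) ≠ 1 := by decide
      have e2 : (2 : Fin 3) ≠ 1 := by decide
      rw [if_neg e0, if_neg e2, if_pos trivial, Nat.choose_symm hj']
      ring
    · intro i hi j hj hij
      rw [Function.onFun, Finset.disjoint_left]
      intro a ha hb'
      rw [Fintype.mem_piFinset] at ha hb'
      have h1 := (Finset.mem_powersetCard.1 (ha 0)).2
      have h3 := (Finset.mem_powersetCard.1 (hb' 0)).2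
      rw [h1] at h3
      exact hij (by simpa using h3)
  have h1 := card_le_EC hc2 hcen hχ hb S (by
    intro a ha
    rw [hS, Finset.mem_biUnion] at ha
    obtain ⟨j, hj, ha⟩ := ha
    have hj' : j ≤ k := by have := Finset.mem_range.1 hj; omega
    rw [Fintype.mem_piFinset] at ha
    have h10 := (Finset.mem_powersetCard.1 (ha 0)).2
    have h11 := (Finset.mem_powersetCard.1 (ha 1)).2
    have h12 := (Finset.mem_powersetCard.1 (ha 2)).2
    have h10' : (a 0).card = j := by simpa using h10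
    have h11' : (a 1).card = k - j := by simpa using h11
    have h12' : (a 2).card = j := by simpa using h12
    rw [Fin.sum_univ_three, h10', h11', h12', ← hk]
    have hkj : ((k - j : ℕ) : ℤ) = k - j := by
      rw [Nat.cast_sub hj']
    rw [hkj]
    simp only [Fin.val_zero, Fin.val_one, Fin.val_two, pow_zero, pow_one, mul_one]
    rw [← hζ, hz]
    push_cast
    ring)
  rw [hScard] at h1
  -- Cauchy-Schwarz
  have hCS : ((Nat.centralBinom k : ℝ)) ^ 2 ≤
      (∑ j ∈ Finset.range (k + 1), ((k.choose j : ℝ)) ^ 3) * 2 ^ k := by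
    have h3 : (Nat.centralBinom k : ℝ) = ∑ j ∈ Finset.range (k + 1), ((k.choose j : ℝ)) ^ 2 := by
      rw [Nat.centralBinom_eq_two_mul_choose, ← Nat.sum_range_choose_sq k] 
      push_cast; rfl
    have h4 : (2 : ℝ) ^ k = ∑ j ∈ Finset.range (k + 1), ((k.choose j : ℝ)) := by
      have := Nat.sum_range_choose k
      exact_mod_cast this.symm
    rw [h3, h4]
    have h5 := Finset.sum_mul_sq_le_sq_mul_sq (Finset.range (k + 1))
      (fun j => Real.sqrt ((k.choose j : ℝ) ^ 3)) (fun j => Real.sqrt (k.choose j : ℝ))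
    have h7 : ∀ j, Real.sqrt ((k.choose j : ℝ) ^ 3) * Real.sqrt (k.choose j : ℝ)
        = ((k.choose j : ℝ)) ^ 2 := by
      intro j
      rw [← Real.sqrt_mul (by positivity)]
      have : (k.choose j : ℝ) ^ 3 * (k.choose j : ℝ) = (((k.choose j : ℝ)) ^ 2) ^ 2 := by ring
      rw [this, Real.sqrt_sq (by positivity)]
    have h8 : ∀ j, Real.sqrt ((k.choose j : ℝ) ^ 3) ^ 2 = (k.choose j : ℝ) ^ 3 := by
      intro j; rw [Real.sq_sqrt (by positivity)]
    have h9 : ∀ j, Real.sqrt ((k.choose j : ℝ)) ^ 2 = (k.choose j : ℝ) := by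
      intro j; rw [Real.sq_sqrt (by positivity)]
    simp only [h7, h8, h9] at h5
    exact h5
  have h13 : (∑ j ∈ Finset.range (k + 1), ((k.choose j : ℝ)) ^ 3) ≤ ((EC c χ).card : ℝ) := by
    exact_mod_cast h1
  have h5 := four_pow_le_centralBinom_sq k hk1
  have h8 : ((16 : ℝ) ^ k) ≤ 4 * k * (Nat.centralBinom k : ℝ) ^ 2 := by exact_mod_cast h5
  have hn' : (n : ℝ) = 3 * k := by rw [← hcard]; push_cast; ring
  have hk' : (0 : ℝ) < k := by exact_mod_cast hk1
  have h7 : (2 : ℝ) ^ n = 8 ^ k := by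
    rw [← hcard, mul_comm, pow_mul]; norm_num
  rw [div_le_iff₀ (by rw [hn']; positivity), h7, hn']
  set E : ℝ := ((EC c χ).card : ℝ) with hE
  have hE0 : 0 ≤ E := by positivity
  have h14 : (16 : ℝ) ^ k ≤ 4 * k * (E * 2 ^ k) := by
    refine h8.trans ?_
    apply mul_le_mul_of_nonneg_left _ (by positivity)
    refine hCS.trans ?_
    apply mul_le_mul_of_nonneg_right h13 (by positivity)
  have h15 : (16 : ℝ) ^ k = 8 ^ k * 2 ^ k := by
    rw [← mul_pow]; norm_num
  have h16 : (8 : ℝ) ^ k ≤ 4 * k * E := by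
    rw [h15] at h14
    have h2k : (0 : ℝ) < 2 ^ k := by positivity
    have : (8 : ℝ) ^ k * 2 ^ k ≤ (4 * k * E) * 2 ^ k := by
      refine h14.trans (le_of_eq (by ring))
    exact le_of_mul_le_mul_right this h2k
  refine h16.trans ?_
  nlinarith

end Pool.MP43e44c.NA
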