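import Pool.Agent.H.MP_43e44c_ag.NA.Dict
import Pool.Agent.H.MP_43e44c_ag.NA.LowN
import Pool.Agent.H.MP_43e44c_ag.AB.Bonf
import Pool.Agent.H.MP_43e44c_ag.NA.Prim

/-!
The number of exotic CM types of an abelian CM field is bounded below by the size of the union of the
events attached to a family of cyclic subfields of the same degree.
-/

set_option autoImplicit false

open NumberField Finset Module

namespace Pool.MP43e44c.NA

variable {K : Type*} [Field K] [NumberField K] [IsCMField K] [IsGalois ℚ K]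

theorem card_aut {n : ℕ} (hn : finrank ℚ K = 2 * n) : Fintype.card (K ≃ₐ[ℚ] K) = 2 * n := by
  rw [← Nat.card_eq_fintype_card, IsGalois.card_aut_eq_finrank, hn]

open Classical in
theorem card_char_le {φ : K →+* ℂ} {c : K ≃ₐ[ℚ] K} (hc2 : c * c = 1)
    (hcen : ∀ g, g * c = c * g)
    (hc : ∀ g, ComplexEmbedding.conjugate (tw φ g) = tw φ (g * c)) {n : ℕ}
    (hn : finrank ℚ K = 2 * n) :
    (univ.filter fun A : Finset (K ≃ₐ[ℚ] K) => IsHalf c A ∧ ∃ χ : (K ≃ₐ[ℚ] K) →* ℂˣ,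
      χ c = -1 ∧ (χ ^ 4 = 1 ∨ χ ^ 6 = 1) ∧ ∑ g, (sgn A g : ℂ) * (χ g : ℂ) = 0).card
    ≤ {Φ : Finset (K →+* ℂ) | IsCMType Φ ∧ ¬ HodgeRingGeneratedByDivisors Φ}.ncard
      + 2 * n * 2 ^ (n / 2) := by
  by_cases hc1 : c = 1
  · subst hc1
    rw [Finset.card_eq_zero.2]
    · exact Nat.zero_le _
    · rw [Finset.filter_eq_empty_iff]
      rintro A - ⟨-, χ, h1, -⟩
      rw [map_one] at h1
      have h2 := congrArg Units.val h1
      norm_num at h2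
  have hsub : (univ.filter fun A : Finset (K ≃ₐ[ℚ] K) => IsHalf c A ∧
      ∃ χ : (K ≃ₐ[ℚ] K) →* ℂˣ,
        χ c = -1 ∧ (χ ^ 4 = 1 ∨ χ ^ 6 = 1) ∧ ∑ g, (sgn A g : ℂ) * (χ g : ℂ) = 0)
      ⊆ (univ.filter fun A : Finset (K ≃ₐ[ℚ] K) => (IsHalf c A ∧
      ∃ χ : (K ≃ₐ[ℚ] K) →* ℂˣ,
        χ c = -1 ∧ (χ ^ 4 = 1 ∨ χ ^ 6 = 1) ∧ ∑ g, (sgn A g : ℂ) * (χ g : ℂ) = 0) ∧
        ∀ h : K ≃ₐ[ℚ] K, (∀ x, x ∈ A ↔ x * h ∉ A) → h = c) ∪
        (univ.filter fun A : Finset (K ≃ₐ[ℚ] K) => IsHalf c A ∧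
      ∃ h : K ≃ₐ[ℚ] K, h ≠ c ∧ ∀ x, x ∈ A ↔ x * h ∉ A) := by
    intro A hA
    have hA' := (mem_filter.1 hA).2
    rw [mem_union, mem_filter, mem_filter]
    by_cases h : ∀ h : K ≃ₐ[ℚ] K, (∀ x, x ∈ A ↔ x * h ∉ A) → h = c
    · exact Or.inl ⟨mem_univ _, hA', h⟩
    · push Not at h
      obtain ⟨h, h1, h2⟩ := h
      exact Or.inr ⟨mem_univ _, hA'.1, h, h2, h1⟩
  refine (card_le_card hsub).trans ((card_union_le _ _).trans (Nat.add_le_add ?_ ?_))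
  · rw [← Set.ncard_coe_finset]
    have hhalf : ∀ A : Finset (K ≃ₐ[ℚ] K),
        halfOf φ (univ.filter fun ψ => ∃ g ∈ A, tw φ g = ψ) = A := by
      intro A
      ext g
      rw [mem_halfOf, mem_filter]
      constructor
      · rintro ⟨-, g', hg', h⟩
        rwa [← (tw_bijective φ).1 h]
      · intro h
        exact ⟨mem_univ _, g, h, rfl⟩
    refine Set.ncard_le_ncard_of_injOn (fun A => univ.filter fun ψ => ∃ g ∈ A, tw φ g = ψ)
      ?_ ?_ (Set.toFinite _)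
    · intro A hA
      obtain ⟨⟨hA1, χ, hχ, h46, h0⟩, hsym⟩ := (mem_filter.1 (mem_coe.1 hA)).2
      have hΦ : IsCMType (univ.filter fun ψ => ∃ g ∈ A, tw φ g = ψ) := by
        rw [← isHalf_iff hc, hhalf]
        exact hA1
      refine ⟨hΦ, ?_⟩
      apply exotic_of_char hc2 hc hΦ (χ := χ) _ hχ h46
      · have h1 := h0
        rw [← h1]
        refine Finset.sum_congr rfl fun g _ => ?_
        rw [hhalf]
      · rw [hhalf]
        exact hsym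
    · intro A _ B _ h
      simp only at h
      rw [← hhalf A, h, hhalf B]
  · exact card_symm_le hc2 hcen hc1 (card_aut hn)

/-- The lower bound for a family of cyclic subfields of the same degree. -/
theorem family_lower [DecidableEq (K ≃ₐ[ℚ] K)] {φ : K →+* ℂ} {c : K ≃ₐ[ℚ] K} (hc2 : c * c = 1)
    (hcen : ∀ g, g * c = c * g)
    (hc : ∀ g, ComplexEmbedding.conjugate (tw φ g) = tw φ (g * c))
    (hc' : ∀ ψ : K →+* ℂ, ComplexEmbedding.conjugate ψ = ψ.comp (c : K →+* K)) {n : ℕ}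
    (hn : finrank ℚ K = 2 * n) {m : ℕ} (hm : m ∣ 4 ∨ m ∣ 6)
    (S : Finset (IntermediateField ℚ K))
    (hS : ∀ F ∈ S, IsGalois ℚ F ∧ IsCyclic (F ≃ₐ[ℚ] F) ∧ (∃ x ∈ F, ∃ φ : K →+* ℂ, (φ x).im ≠ 0) ∧
      finrank ℚ F = m) {α κ : ℝ} (hα : 0 < α) (hκ : 1 ≤ κ) (hκα : κ * α ≤ 1)
    (hlow : ∀ χ : (K ≃ₐ[ℚ] K) →* ℂˣ, χ c = -1 → χ ^ m = 1 → (2 < m → χ ^ 2 ≠ 1) →
      α * 2 ^ n ≤ ((EC c χ).card : ℝ))
    (hpair : ∀ χ χ' : (K ≃ₐ[ℚ] K) →* ℂˣ, χ c = -1 → χ ^ m = 1 → (2 < m → χ ^ 2 ≠ 1) →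
      χ' c = -1 → χ' ^ m = 1 → (2 < m → χ' ^ 2 ≠ 1) → χ.ker ≠ χ'.ker →
      ((EC c χ ∩ EC c χ').card : ℝ) ≤ κ * α ^ 2 * 2 ^ n) :
    1 / (4 * κ) * min 1 (S.card * α) * 2 ^ n
    ≤ ({Φ : Finset (K →+* ℂ) | IsCMType Φ ∧ ¬ HodgeRingGeneratedByDivisors Φ}.ncard : ℝ)
      + 2 * n * 2 ^ (n / 2) := by
  have hex : ∀ F : IntermediateField ℚ K, ∃ χ : (K ≃ₐ[ℚ] K) →* ℂˣ, F ∈ S →
      χ.ker = F.fixingSubgroup ∧ χ c = -1 ∧ χ ^ m = 1 ∧ (2 < m → χ ^ 2 ≠ 1) := by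
    intro F
    by_cases hF : F ∈ S
    · obtain ⟨h0, h1, h2, h3⟩ := hS F hF
      obtain ⟨χ, h4, h5, h6, h7⟩ := exists_char_field F h1 h2 (φ := φ) hc2 hc'
      rw [h3] at h6 h7
      exact ⟨χ, fun _ => ⟨h4, h5, h6, h7⟩⟩
    · exact ⟨1, fun h => absurd h hF⟩
  choose χ hχ using hex
  have h1 := union_lower S (fun F => EC c (χ F)) (N := 2 ^ n) (by positivity) hα hκ hκα
    (fun F hF => hlow _ (hχ F hF).2.1 (hχ F hF).2.2.1 (hχ F hF).2.2.2)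
    (fun F hF F' hF' hne => hpair _ _ (hχ F hF).2.1 (hχ F hF).2.2.1 (hχ F hF).2.2.2
      (hχ F' hF').2.1 (hχ F' hF').2.2.1 (hχ F' hF').2.2.2 (by
        rw [(hχ F hF).1, (hχ F' hF').1]
        intro h
        apply hne
        rw [← IsGalois.fixedField_fixingSubgroup F, h, IsGalois.fixedField_fixingSubgroup F']))
  refine h1.trans ?_
  classical
  have h2 := card_char_le hc2 hcen hc hn
  have h3 : (S.biUnion fun F => EC c (χ F)).card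
      ≤ {Φ : Finset (K →+* ℂ) | IsCMType Φ ∧ ¬ HodgeRingGeneratedByDivisors Φ}.ncard
      + 2 * n * 2 ^ (n / 2) := by
    refine le_trans (card_le_card ?_) h2
    intro A hA
    obtain ⟨F, hF, hA⟩ := mem_biUnion.1 hA
    unfold EC at hA
    obtain ⟨-, hA1, hA2⟩ := mem_filter.1 hA
    rw [mem_filter]
    refine ⟨mem_univ _, hA1, χ F, (hχ F hF).2.1, ?_, ?_⟩
    · rcases hm with ⟨r, hr⟩ | ⟨r, hr⟩
      · left
        ext g : 1
        have h4 : (χ F g) ^ m = 1 := by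
          rw [← MonoidHom.pow_apply, (hχ F hF).2.2.1, MonoidHom.one_apply]
        rw [hr, MonoidHom.pow_apply, MonoidHom.one_apply, pow_mul, h4, one_pow]
      · right
        ext g : 1
        have h4 : (χ F g) ^ m = 1 := by
          rw [← MonoidHom.pow_apply, (hχ F hF).2.2.1, MonoidHom.one_apply]
        rw [hr, MonoidHom.pow_apply, MonoidHom.one_apply, pow_mul, h4, one_pow]
    · convert hA2
  exact_mod_cast h3

end Pool.MP43e44c.NA
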