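import Pool.Agent.H.MP_43e44c_ag.NA.Char

/-!
Half systems annihilated by an odd character of a group with a central involution.
-/

set_option autoImplicit false

open Finset

namespace Pool.MP43e44c.NA

variable {G : Type*} [Group G] [Fintype G] [DecidableEq G]

/-- Data of a cyclic quotient of `G` not killing the involution `c`. -/
theorem exists_gen {c : G} (hc2 : c * c = 1) (hcen : ∀ g, g * c = c * g) (N : Subgroup G)
    [N.Normal] [IsCyclic (G ⧸ N)] (hcN : c ∉ N) :
    ∃ (t : G) (h : ℕ), N.index = 2 * h ∧ 0 < h ∧ (∀ j : ℕ, t ^ j ∈ N ↔ N.index ∣ j) ∧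
      (∀ g : G, ∃ j < N.index, (t ^ j)⁻¹ * g ∈ N) ∧ (t ^ h)⁻¹ * c ∈ N := by
  classical
  obtain ⟨q, hq⟩ := IsCyclic.exists_generator (α := G ⧸ N)
  obtain ⟨t, rfl⟩ := QuotientGroup.mk_surjective q
  have hord : orderOf (t : G ⧸ N) = N.index := by
    rw [orderOf_eq_card_of_forall_mem_zpowers hq, Subgroup.index_eq_card]
  have hpos : 0 < N.index := by
    rw [← hord]; exact orderOf_pos _
  have hpow : ∀ j : ℕ, t ^ j ∈ N ↔ N.index ∣ j := by
    intro j
    rw [← hord, orderOf_dvd_iff_pow_eq_one, ← QuotientGroup.mk_pow, QuotientGroup.eq_one_iff]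
  have hrep : ∀ g : G, ∃ j < N.index, (t ^ j)⁻¹ * g ∈ N := by
    intro g
    have h1 : (g : G ⧸ N) ∈ Subgroup.zpowers (t : G ⧸ N) := hq _
    rw [mem_zpowers_iff_mem_range_orderOf, Finset.mem_image] at h1
    obtain ⟨j, hj, hj2⟩ := h1
    refine ⟨j, by rw [← hord]; exact Finset.mem_range.1 hj, ?_⟩
    rw [← QuotientGroup.eq, QuotientGroup.mk_pow]
    exact hj2
  obtain ⟨j, hj, hjN⟩ := hrep c
  have hj0 : j ≠ 0 := by
    rintro rfl
    apply hcN; simpa using hjN
  have h2j : N.index ∣ 2 * j := by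
    rw [← hpow]
    have h3 : (t ^ j)⁻¹ * c * ((t ^ j)⁻¹ * c) ∈ N := N.mul_mem hjN hjN
    have h4 : (t ^ j)⁻¹ * c * ((t ^ j)⁻¹ * c) = (t ^ (2 * j))⁻¹ := by
      rw [two_mul, pow_add, mul_inv_rev, mul_assoc, ← mul_assoc c, ← hcen, mul_assoc, hc2, mul_one]
    rw [h4] at h3
    simpa using N.inv_mem h3
  obtain ⟨r, hr⟩ := h2j
  have hr1 : r = 1 := by
    have h5 : r < 2 := by
      by_contra h6
      push Not at h6
      have : N.index * 2 ≤ N.index * r := Nat.mul_le_mul_left _ h6
      omega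
    have h7 : r ≠ 0 := by
      rintro rfl; omega
    omega
  subst hr1
  exact ⟨t, j, by omega, by omega, hpow, hrep, hjN⟩

section Fixed

variable {c : G} (hc2 : c * c = 1) (hcen : ∀ g, g * c = c * g) (N : Subgroup G) (t : G) (h : ℕ)

/-- The parametrisation of `G` by `Fin h × N × Bool`. -/
def param (c : G) (N : Subgroup G) (t : G) (h : ℕ) (x : Bool × Fin h × N) : G :=
  t ^ (x.2.1 : ℕ) * (x.2.2 : G) * (if x.1 then c else 1)

include hcen in
theorem param_bijective (hm : N.index = 2 * h)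
    (hpow : ∀ j : ℕ, t ^ j ∈ N ↔ N.index ∣ j)
    (hrep : ∀ g : G, ∃ j < N.index, (t ^ j)⁻¹ * g ∈ N) (htc : (t ^ h)⁻¹ * c ∈ N) :
    Function.Bijective (param c N t h) := by
  -- every element is congruent to `t ^ (i + h b)`
  have hcong : ∀ x : Bool × Fin h × N,
      (t ^ ((x.2.1 : ℕ) + if x.1 then h else 0))⁻¹ * param c N t h x ∈ N := by
    rintro ⟨b, i, n⟩
    unfold param
    cases b
    · simp
    · simp only [if_true]
      have : (t ^ ((i : ℕ) + h))⁻¹ * (t ^ (i : ℕ) * (n : G) * c) = ((t ^ h)⁻¹ * c) * (n : G) := by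
        rw [pow_add, mul_inv_rev, mul_assoc (t ^ (i : ℕ)), hcen]
        group
      rw [this]
      exact N.mul_mem htc n.2
  have huniq : ∀ i j : ℕ, i < N.index → j < N.index → (t ^ i)⁻¹ * t ^ j ∈ N → i = j := by
    have aux : ∀ i j : ℕ, i ≤ j → j < N.index → (t ^ i)⁻¹ * t ^ j ∈ N → i = j := by
      intro i j hij hj hN
      have : (t ^ i)⁻¹ * t ^ j = t ^ (j - i) := by
        rw [inv_mul_eq_iff_eq_mul, ← pow_add, Nat.add_sub_cancel' hij]
      rw [this, hpow] at hN
      have := Nat.eq_zero_of_dvd_of_lt hN (by omega)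
      omega
    intro i j hi hj hN
    rcases le_total i j with hij | hij
    · exact aux i j hij hj hN
    · refine (aux j i hij hi ?_).symm
      have := N.inv_mem hN
      rw [mul_inv_rev, inv_inv] at this
      exact this
  constructor
  · rintro x y hxy
    have h1 := hcong x
    have h2 := hcong y
    rw [← hxy] at h2
    have h3 : (t ^ ((x.2.1 : ℕ) + if x.1 then h else 0))⁻¹ *
        t ^ ((y.2.1 : ℕ) + if y.1 then h else 0) ∈ N := by
      have := N.mul_mem h1 (N.inv_mem h2)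
      have h4 : (t ^ ((x.2.1 : ℕ) + if x.1 then h else 0))⁻¹ * param c N t h x *
          ((t ^ ((y.2.1 : ℕ) + if y.1 then h else 0))⁻¹ * param c N t h x)⁻¹
          = (t ^ ((x.2.1 : ℕ) + if x.1 then h else 0))⁻¹ *
            t ^ ((y.2.1 : ℕ) + if y.1 then h else 0) := by
        rw [mul_inv_rev, inv_inv, mul_assoc, mul_inv_cancel_left]
      rwa [h4] at this
    have hlt : ∀ z : Bool × Fin h × N, (z.2.1 : ℕ) + (if z.1 then h else 0) < N.index := by
      intro z
      have := z.2.1.2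
      split_ifs <;> omega
    have h5 := huniq _ _ (hlt x) (hlt y) h3
    obtain ⟨b, i, n⟩ := x
    obtain ⟨b', i', n'⟩ := y
    simp only at h5
    have hi := i.2
    have hi' := i'.2
    have hb : b = b' ∧ (i : ℕ) = (i' : ℕ) := by
      cases b <;> cases b' <;> simp at h5 ⊢ <;> omega
    obtain ⟨rfl, hii⟩ := hb
    have hii' : i = i' := Fin.ext hii
    subst hii'
    simp only [param] at hxy
    have h6 := mul_left_cancel (mul_right_cancel hxy)
    have h7 : n = n' := Subtype.ext h6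
    rw [h7]
  · intro g
    obtain ⟨j, hj, hjN⟩ := hrep g
    by_cases hjh : j < h
    · refine ⟨(false, ⟨j, hjh⟩, ⟨_, hjN⟩), ?_⟩
      simp [param]
    · refine ⟨(true, ⟨j - h, by omega⟩, ⟨(t ^ (j - h))⁻¹ * g * c⁻¹, ?_⟩), ?_⟩
      · have h8 : (t ^ (j - h))⁻¹ * g * c⁻¹ = ((t ^ h)⁻¹ * c)⁻¹ * ((t ^ j)⁻¹ * g) := by
          have : t ^ j = t ^ (j - h) * t ^ h := by
            rw [← pow_add]; congr 1; omega
          rw [this]
          have hcen' : ∀ g, g * c⁻¹ = c⁻¹ * g := by
            intro g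
            rw [mul_inv_eq_iff_eq_mul, mul_assoc, hcen g, inv_mul_cancel_left]
          rw [hcen', mul_inv_rev, inv_inv, mul_inv_rev]
          group
        rw [h8]
        exact N.mul_mem (N.inv_mem htc) hjN
      · simp only [param, if_true]
        rw [mul_assoc (t ^ (j - h))⁻¹, mul_inv_cancel_left, inv_mul_cancel_right]

/-- The family of subsets of `N` attached to a subset of `G`. -/
noncomputable def fam (N : Subgroup G) (t : G) (h : ℕ) (A : Finset G) (i : Fin h) : Finset N := by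
  classical
  exact univ.filter fun n : N => t ^ (i : ℕ) * (n : G) ∈ A

theorem mem_fam {N : Subgroup G} {t : G} {h : ℕ} {A : Finset G} {i : Fin h} {n : N} :
    n ∈ fam N t h A i ↔ t ^ (i : ℕ) * (n : G) ∈ A := by
  classical
  simp [fam]

theorem fam_injOn (hb : Function.Bijective (param c N t h)) {A B : Finset G}
    (hA : IsHalf c A) (hB : IsHalf c B) (hAB : fam N t h A = fam N t h B) : A = B := by
  ext g
  obtain ⟨⟨b, i, n⟩, rfl⟩ := hb.2 g
  have h1 : t ^ (i : ℕ) * (n : G) ∈ A ↔ t ^ (i : ℕ) * (n : G) ∈ B := by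
    rw [← mem_fam (N := N) (h := h), ← mem_fam (N := N) (h := h), hAB]
  cases b
  · simpa [param] using h1
  · simp only [param, if_true]
    have h2 := hA (t ^ (i : ℕ) * (n : G))
    have h3 := hB (t ^ (i : ℕ) * (n : G))
    tauto

include hc2 in
theorem fam_surj (hb : Function.Bijective (param c N t h)) (a : Fin h → Finset N) :
    ∃ A : Finset G, IsHalf c A ∧ fam N t h A = a := by
  classical
  set e := Equiv.ofBijective _ hb with he
  have he1 : ∀ b i n, e (b, i, n) = t ^ (i : ℕ) * (n : G) * (if b then c else 1) := by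
    intro b i n; rfl
  have hmul : ∀ b i n, e (b, i, n) * c = e (!b, i, n) := by
    intro b i n
    rw [he1, he1]
    cases b
    · simp
    · simp [mul_assoc, hc2]
  refine ⟨univ.filter fun g => ((e.symm g).2.2 ∈ a (e.symm g).2.1) ↔ (e.symm g).1 = false,
    ?_, ?_⟩
  · intro g
    obtain ⟨⟨b, i, n⟩, rfl⟩ := e.surjective g
    rw [hmul]
    simp only [mem_filter, mem_univ, true_and, Equiv.symm_apply_apply]
    cases b <;> simp
  · funext i
    ext n
    rw [mem_fam]
    have : t ^ (i : ℕ) * (n : G) = e (false, i, n) := by rw [he1]; simp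
    rw [this]
    simp

/-- The sum of a character over a half system. -/
theorem sum_char (hb : Function.Bijective (param c N t h)) {A : Finset G} (hA : IsHalf c A)
    (χ : G →* ℂˣ) (hχ : χ.ker = N) (hχc : χ c = -1) :
    ∑ g, (sgn A g : ℂ) * (χ g : ℂ)
      = 2 * ∑ i : Fin h, ((2 * (fam N t h A i).card : ℤ) - (Nat.card N : ℤ) : ℤ)
          * (χ t : ℂ) ^ (i : ℕ) := by
  classical
  have hsgnC : ∀ g, (sgn A (g * c) : ℂ) = - (sgn A g : ℂ) := by
    intro g
    rw [sgn_mul hA g]; push_cast; ring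
  have hker : ∀ n : N, χ (n : G) = 1 := by
    intro n
    have h' : (n : G) ∈ χ.ker := by rw [hχ]; exact n.2
    exact h'
  rw [← (Equiv.ofBijective _ hb).sum_comp]
  simp only [Equiv.ofBijective_apply]
  rw [Fintype.sum_prod_type]
  simp only [Fintype.sum_prod_type, Fintype.sum_bool, param, if_true, Bool.false_eq_true, if_false,
    mul_one]
  rw [← Finset.sum_add_distrib, Finset.mul_sum]
  refine Finset.sum_congr rfl fun i _ => ?_
  rw [← Finset.sum_add_distrib]
  have h1 : ∀ n : N, (sgn A (t ^ (i : ℕ) * (n : G) * c) : ℂ) * (χ (t ^ (i : ℕ) * (n : G) * c) : ℂ)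
      + (sgn A (t ^ (i : ℕ) * (n : G)) : ℂ) * (χ (t ^ (i : ℕ) * (n : G)) : ℂ)
      = 2 * (χ t : ℂ) ^ (i : ℕ) * (sgn A (t ^ (i : ℕ) * (n : G)) : ℂ) := by
    intro n
    rw [hsgnC, map_mul χ, hχc, map_mul, map_pow, hker]
    push_cast
    ring
  rw [Finset.sum_congr rfl fun n _ => h1 n, ← Finset.mul_sum]
  have h2 : ∑ n : N, (sgn A (t ^ (i : ℕ) * (n : G)) : ℂ)
      = ((2 * (fam N t h A i).card : ℤ) - (Nat.card N : ℤ) : ℤ) := by
    have h3 : ∀ n : N, sgn A (t ^ (i : ℕ) * (n : G))
        = 2 * (if n ∈ fam N t h A i then 1 else 0) - 1 := by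
      intro n
      unfold sgn
      by_cases hn : t ^ (i : ℕ) * (n : G) ∈ A
      · rw [if_pos hn, if_pos (mem_fam.2 hn)]; norm_num
      · rw [if_neg hn, if_neg (fun h => hn (mem_fam.1 h))]; norm_num
    have h4 : ∑ n : N, sgn A (t ^ (i : ℕ) * (n : G))
        = (2 * (fam N t h A i).card : ℤ) - (Nat.card N : ℤ) := by
      rw [Finset.sum_congr rfl fun n _ => h3 n, Finset.sum_sub_distrib, ← Finset.mul_sum,
        Finset.sum_boole]
      simp [Finset.card_univ, Nat.card_eq_fintype_card]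
    rw [← h4]; push_cast; rfl
  rw [h2]
  ring

end Fixed

end Pool.MP43e44c.NA
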