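import Pool.Agent.H.MP_43e44c_ag.AB.Lin
import Pool.Agent.H.MP_43e44c_ag.NA.Grp

/-!
Half systems solving several linearly independent equations which are constant on the cosets of a
subgroup of bounded index.
-/

set_option autoImplicit false

open Finset

namespace Pool.MP43e44c.NA

section LinAux

variable {G : Type*} [Group G] {c : G} (M : Subgroup G)

/-- Parametrisation of `G` by representatives of the cosets of `M⟨c⟩`, elements of `M` and a bit. -/
noncomputable def linPar (c : G) (M : Subgroup G)
    (x : Bool × (G ⧸ (M ⊔ Subgroup.zpowers c)) × M) : G :=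
  Quotient.out x.2.1 * (x.2.2 : G) * (if x.1 then c else 1)

theorem linPar_mem (hc2 : c * c = 1) (hcen : ∀ g, g * c = c * g) {g : G}
    (hg : g ∈ M ⊔ Subgroup.zpowers c) :
    g ∈ M ∨ g * c ∈ M := by
  haveI : (Subgroup.zpowers c).Normal := by
    constructor
    rintro z hz g
    obtain ⟨j, rfl⟩ := Subgroup.mem_zpowers_iff.1 hz
    have h1 : Commute g (c ^ j) := Commute.zpow_right (hcen g) j
    rw [h1.eq, mul_inv_cancel_right]
    exact hz
  obtain ⟨m, hm, z, hz, rfl⟩ := Subgroup.mem_sup_of_normal_right.1 hg
  obtain ⟨j, rfl⟩ := Subgroup.mem_zpowers_iff.1 hz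
  have hc2' : c ^ (2 : ℤ) = 1 := by rw [zpow_two]; exact hc2
  rcases Int.even_or_odd' j with ⟨k, rfl | rfl⟩
  · left
    rw [zpow_mul, hc2', one_zpow, mul_one]
    exact hm
  · right
    rw [zpow_add, zpow_mul, hc2', one_zpow, one_mul, zpow_one, mul_assoc, hc2, mul_one]
    exact hm

theorem linPar_bij (hc2 : c * c = 1) (hcen : ∀ g, g * c = c * g) (hcM : c ∉ M) :
    Function.Bijective (linPar c M) := by
  have hmk : ∀ x : Bool × (G ⧸ (M ⊔ Subgroup.zpowers c)) × M,
      (QuotientGroup.mk (linPar c M x) : G ⧸ (M ⊔ Subgroup.zpowers c)) = x.2.1 := by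
    intro x
    have h1 : ((x.2.2 : G) * (if x.1 then c else 1)) ∈ M ⊔ Subgroup.zpowers c := by
      refine Subgroup.mul_mem _ ((le_sup_left : M ≤ M ⊔ Subgroup.zpowers c) x.2.2.2) ?_
      split_ifs
      · exact (le_sup_right : Subgroup.zpowers c ≤ M ⊔ Subgroup.zpowers c)
          (Subgroup.mem_zpowers c)
      · exact Subgroup.one_mem _
    unfold linPar
    rw [mul_assoc, QuotientGroup.mk_mul_of_mem _ h1]
    exact Quotient.out_eq _
  constructor
  · rintro ⟨b, i, m⟩ ⟨b', i', m'⟩ hxy
    have h1 := hmk ⟨b, i, m⟩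
    have h2 := hmk ⟨b', i', m'⟩
    rw [hxy, h2] at h1
    simp only at h1
    subst h1
    simp only [linPar] at hxy
    rw [mul_assoc, mul_assoc] at hxy
    have h3 := mul_left_cancel hxy
    have hb : b = b' := by
      cases b <;> cases b'
      · rfl
      · exfalso
        simp only [Bool.false_eq_true, if_false, if_true, mul_one] at h3
        apply hcM
        have : c = (m' : G)⁻¹ * m := by rw [h3, inv_mul_cancel_left]
        rw [this]
        exact M.mul_mem (M.inv_mem m'.2) m.2
      · exfalso
        simp only [Bool.false_eq_true, if_false, if_true, mul_one] at h3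
        apply hcM
        have : c = (m : G)⁻¹ * m' := by rw [← h3, inv_mul_cancel_left]
        rw [this]
        exact M.mul_mem (M.inv_mem m.2) m'.2
      · rfl
    subst hb
    have h4 : m = m' := Subtype.ext (mul_right_cancel h3)
    rw [h4]
  · intro g
    set i : G ⧸ (M ⊔ Subgroup.zpowers c) := (g : G ⧸ (M ⊔ Subgroup.zpowers c)) with hi
    have h1 : (Quotient.out i)⁻¹ * g ∈ M ⊔ Subgroup.zpowers c := by
      rw [← QuotientGroup.eq]
      exact Quotient.out_eq i
    rcases linPar_mem M hc2 hcen h1 with h2 | h2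
    · refine ⟨(false, i, ⟨_, h2⟩), ?_⟩
      simp [linPar]
    · refine ⟨(true, i, ⟨_, h2⟩), ?_⟩
      simp only [linPar, if_true]
      rw [← mul_assoc, mul_inv_cancel_left, mul_assoc, hc2, mul_one]

open Classical in
/-- The family of subsets of `M` attached to a subset of `G`. -/
noncomputable def linFam [Fintype G] (c : G) (M : Subgroup G) (A : Finset G)
    (i : G ⧸ (M ⊔ Subgroup.zpowers c)) : Finset M :=
  univ.filter fun m : M => Quotient.out i * (m : G) ∈ A

theorem mem_linFam [Fintype G] {A : Finset G} {i : G ⧸ (M ⊔ Subgroup.zpowers c)} {m : M} :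
    m ∈ linFam c M A i ↔ Quotient.out i * (m : G) ∈ A := by
  classical
  simp [linFam]

theorem linFam_inj [Fintype G] (hc2 : c * c = 1) (hcen : ∀ g, g * c = c * g) (hcM : c ∉ M) {A B : Finset G}
    (hA : IsHalf c A) (hB : IsHalf c B) (hAB : linFam c M A = linFam c M B) : A = B := by
  ext g
  obtain ⟨⟨b, i, n⟩, rfl⟩ := (linPar_bij M hc2 hcen hcM).2 g
  have h1 : Quotient.out i * (n : G) ∈ A ↔ Quotient.out i * (n : G) ∈ B := by
    rw [← mem_linFam (c := c) M, ← mem_linFam (c := c) M, hAB]
  cases b
  · simpa [linPar] using h1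
  · simp only [linPar, if_true]
    have h2 := hA (Quotient.out i * (n : G))
    have h3 := hB (Quotient.out i * (n : G))
    tauto

end LinAux

open Classical in
/-- Let `h := Fintype.card G / (2 * k)` be the index of the subgroup `M⟨c⟩`.  Choose representatives
`T : (G ⧸ M⟨c⟩) → G`; every element of `G` is uniquely `T i * m * c ^ b` with `m ∈ M`, `b ∈ {0, 1}` (`c ∉ M`).
A half system `A` is determined by the family `a i = {m : M | T i * m ∈ A}` and every family occurs
(only injectivity is needed), and
`∑ g, u j g * sgn A g = 2 * ∑ i, u j (T i) * (2 * (a i).card - k)`.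
The `r` vectors `i ↦ u j (T i)` are linearly independent (a relation between them gives a relation
between the `u j`, which are determined by their values at the `T i`), so there are `r` coordinates
`D` such that the minor is nonzero, and `card_sizes_piv` applies with
`P x := ∀ j, ∑ i, u j (T i) * (2 * x i - k) = 0`: the count is at most
`(k.choose (k/2)) ^ r * (2 ^ k) ^ (h - r) = maxProb k ^ r * 2 ^ (k h)`, `k h = n`. -/
theorem card_lin_le {G : Type*} [Group G] [Fintype G] {c : G} (hc2 : c * c = 1) (hcen : ∀ g, g * c = c * g) (M : Subgroup G)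
    (hcM : c ∉ M) {n : ℕ} (hn : Fintype.card G = 2 * n) {r : ℕ} (u : Fin r → G → ℝ)
    (hodd : ∀ j g, u j (g * c) = - u j g) (hM : ∀ j g, ∀ m ∈ M, u j (g * m) = u j g)
    (hli : LinearIndependent ℝ u) :
    ((univ.filter fun A : Finset G => IsHalf c A ∧ ∀ j, ∑ g, u j g * (sgn A g : ℝ) = 0).card : ℝ)
      ≤ maxProb (Nat.card M) ^ r * 2 ^ n := by
  set Q := G ⧸ (M ⊔ Subgroup.zpowers c) with hQ
  have hb := linPar_bij M hc2 hcen hcM
  set k := Nat.card M with hk
  have hkF : Fintype.card M = k := by rw [hk, Nat.card_eq_fintype_card]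
  -- the vectors of values at the representatives
  set w : Fin r → Q → ℝ := fun j i => u j (Quotient.out i) with hw
  have hval : ∀ j (x : Bool × Q × M), u j (linPar c M x) = (if x.1 then -1 else 1) * w j x.2.1 := by
    rintro j ⟨b, i, m⟩
    cases b
    · simp [linPar, hw, hM j _ _ m.2]
    · simp [linPar, hw, hM j _ _ m.2, hodd]
  have hwli : LinearIndependent ℝ w := by
    let e := Equiv.ofBijective _ hb
    let Φ : (Q → ℝ) →ₗ[ℝ] (G → ℝ) :=
      { toFun := fun z g => (if (e.symm g).1 then -1 else 1) * z (e.symm g).2.1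
        map_add' := by
          intro x y; funext g
          simp only [Pi.add_apply]; ring
        map_smul' := by
          intro s x; funext g
          simp only [Pi.smul_apply, smul_eq_mul, RingHom.id_apply]; ring }
    have hΦ : Φ ∘ w = u := by
      funext j g
      show (if (e.symm g).1 then (-1 : ℝ) else 1) * w j (e.symm g).2.1 = u j g
      rw [← hval]
      have : linPar c M (e.symm g) = e (e.symm g) := rfl
      rw [this, Equiv.apply_symm_apply]
    apply LinearIndependent.of_comp Φ
    rw [hΦ]
    exact hli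
  obtain ⟨D, hD, hpiv⟩ := exists_pivots w hwli
  -- the sum over a half system
  have hsum : ∀ A : Finset G, IsHalf c A → ∀ j, ∑ g, u j g * (sgn A g : ℝ)
      = 2 * ∑ i, w j i * (2 * ((linFam c M A i).card : ℝ) - k) := by
    intro A hA j
    have hsgnC : ∀ g, (sgn A (g * c) : ℝ) = - (sgn A g : ℝ) := by
      intro g
      rw [sgn_mul hA g]; push_cast; ring
    rw [← (Equiv.ofBijective _ hb).sum_comp]
    simp only [Equiv.ofBijective_apply]
    rw [Fintype.sum_prod_type]
    simp only [Fintype.sum_prod_type, Fintype.sum_bool, hval, if_true, Bool.false_eq_true, if_false]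
    rw [← Finset.sum_add_distrib, Finset.mul_sum]
    refine Finset.sum_congr rfl fun i _ => ?_
    rw [← Finset.sum_add_distrib]
    have h1 : ∀ m : M, (-1 * w j i * (sgn A (linPar c M (true, i, m)) : ℝ)
        + 1 * w j i * (sgn A (linPar c M (false, i, m)) : ℝ))
        = 2 * w j i * (2 * (if m ∈ linFam c M A i then 1 else 0) - 1) := by
      intro m
      have h2 : linPar c M (true, i, m) = linPar c M (false, i, m) * c := by
        simp [linPar]
      rw [h2, hsgnC]
      have h3 : linPar c M (false, i, m) = Quotient.out i * (m : G) := by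
        simp [linPar]
      rw [h3]
      unfold sgn
      by_cases hm : Quotient.out i * (m : G) ∈ A
      · rw [if_pos hm, if_pos ((mem_linFam M).2 hm)]; push_cast; ring
      · rw [if_neg hm, if_neg (fun h => hm ((mem_linFam M).1 h))]; push_cast; ring
    rw [Finset.sum_congr rfl fun m _ => h1 m, ← Finset.mul_sum, Finset.sum_sub_distrib,
      ← Finset.mul_sum, Finset.sum_boole]
    simp only [Finset.filter_univ_mem, Finset.sum_const, Finset.card_univ, hkF, nsmul_eq_mul, mul_one]
    ring
  -- cardinalities
  have hcardG : Fintype.card G = 2 * (Fintype.card Q * k) := by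
    rw [← Fintype.card_congr (Equiv.ofBijective _ hb), Fintype.card_prod, Fintype.card_prod,
      Fintype.card_bool, hkF]
  have hnQ : n = k * Fintype.card Q := by
    rw [hn] at hcardG
    have := Nat.eq_of_mul_eq_mul_left (by norm_num) hcardG
    rw [this, mul_comm]
  have hrQ : r ≤ Fintype.card Q := by
    rw [← hD]; exact Finset.card_le_univ D
  have hbad : (univ.filter fun A : Finset G => IsHalf c A ∧
      ∀ j, ∑ g, u j g * (sgn A g : ℝ) = 0).card
      ≤ (k.choose (k / 2)) ^ r * (2 ^ k) ^ (Fintype.card Q - r) := by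
    have h2 := card_sizes_piv (N := M) D
      (fun x : Q → ℕ => ∀ j, ∑ i, w j i * (2 * (x i : ℝ) - k) = 0) (by
        intro x y hx hy hxy
        have h3 := hpiv (fun i => (x i : ℝ) - y i) (fun i hi => by
          show (x i : ℝ) - y i = 0
          rw [hxy i hi, sub_self]) (fun j => by
          have h4 := hx j
          have h5 := hy j
          have h6 : ∑ i, w j i * ((x i : ℝ) - y i) = (1 / 2) * (∑ i, w j i * (2 * (x i : ℝ) - k)
              - ∑ i, w j i * (2 * (y i : ℝ) - k)) := by
            rw [← Finset.sum_sub_distrib, Finset.mul_sum]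
            refine Finset.sum_congr rfl fun i _ => ?_
            ring
          rw [h6, h4, h5]; norm_num)
        funext i
        have h7 := congrFun h3 i
        simp only [Pi.zero_apply] at h7
        have h8 : (x i : ℝ) = y i := by linarith
        exact_mod_cast h8)
    rw [hkF, hD] at h2
    have h2' : (univ.filter fun a : Q → Finset M =>
        ∀ j, ∑ i, w j i * (2 * ((a i).card : ℝ) - k) = 0).card
        ≤ (k.choose (k / 2)) ^ r * (2 ^ k) ^ (Fintype.card Q - r) := by
      have e1 : ∀ (P : (Q → Finset M) → Prop) (f1 f2 : Fintype (Q → Finset M))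
          (i1 i2 : DecidablePred P),
          (@Finset.filter _ P i1 (@univ _ f1)).card = (@Finset.filter _ P i2 (@univ _ f2)).card :=
        fun P f1 f2 i1 i2 => by rw [Subsingleton.elim f1 f2, Subsingleton.elim i1 i2]
      exact (e1 _ _ _ _ _).le.trans h2
    refine le_trans ?_ h2'
    refine Finset.card_le_card_of_injOn (fun A => linFam c M A) ?_ ?_
    · intro A hA
      obtain ⟨hA1, h0⟩ := (mem_filter.1 (mem_coe.1 hA)).2
      refine mem_coe.2 (mem_filter.2 ⟨mem_univ _, fun j => ?_⟩)
      have h9 := h0 j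
      rw [hsum A hA1 j] at h9
      exact (mul_eq_zero.1 h9).resolve_left two_ne_zero
    · intro A hA B hB hAB
      exact linFam_inj M hc2 hcen hcM (mem_filter.1 (mem_coe.1 hA)).2.1
        (mem_filter.1 (mem_coe.1 hB)).2.1 hAB
  have h8 : ((univ.filter fun A : Finset G => IsHalf c A ∧
      ∀ j, ∑ g, u j g * (sgn A g : ℝ) = 0).card : ℝ)
      ≤ ((k.choose (k / 2) : ℝ)) ^ r * (2 ^ k) ^ (Fintype.card Q - r) := by
    exact_mod_cast hbad
  refine h8.trans (le_of_eq ?_)
  have h9 : ((2 : ℝ) ^ n) = ((2 : ℝ) ^ k) ^ r * ((2 : ℝ) ^ k) ^ (Fintype.card Q - r) := by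
    rw [← pow_add, Nat.add_sub_cancel' hrQ, hnQ, pow_mul]
  rw [h9, maxProb, div_pow]
  field_simp

end Pool.MP43e44c.NA
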