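import Pool.Agent.H.MP_43e44c_ag.NA.Fam
import Pool.Agent.H.MP_43e44c_ag.AB.Main

/-!
The lower bound for Galois CM fields.
-/

set_option autoImplicit false

open NumberField Finset Module

namespace Pool.MP43e44c.NA

/-- The subfields `F` of degree four with `[K : F]` even, and of degree six, which are non-real and
cyclic Galois extensions of the rationals. -/
def fourSixG (K : Type*) [Field K] [NumberField K] : Set (IntermediateField ℚ K) :=
  {F | IsGalois ℚ F ∧ IsCyclic (F ≃ₐ[ℚ] F) ∧ (∃ x ∈ F, ∃ φ : K →+* ℂ, (φ x).im ≠ 0) ∧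
    ((finrank ℚ F = 4 ∧ Even (finrank F K)) ∨ finrank ℚ F = 6)}

section Lower

variable {K : Type*} [Field K] [NumberField K] [IsCMField K] [IsGalois ℚ K]

theorem finite_intermediateField : Finite (IntermediateField ℚ K) :=
  Finite.of_equiv _ (IsGalois.intermediateFieldEquivSubgroup (F := ℚ) (E := K)).toEquiv.symm

theorem lower_two {n : ℕ} (hn : finrank ℚ K = 2 * n) (h16 : 16 ≤ n) :
    1 / 32 * min 1 ((evenImagQuadratic K).ncard * (1 / (2 * √n))) * 2 ^ n
      ≤ nB K + 2 * n * 2 ^ (n / 2) := by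
  classical
  obtain ⟨φ⟩ : Nonempty (K →+* ℂ) := inferInstance
  obtain ⟨c, hc2, hcen, hc, hc'⟩ := exists_c φ
  have hfinF := finite_intermediateField (K := K)
  have hfin : (evenImagQuadratic K).Finite := Set.toFinite _
  have hn0 : 0 < n := by omega
  have hnR : (0 : ℝ) < n := by exact_mod_cast hn0
  have hs : 0 < √(n : ℝ) := Real.sqrt_pos.2 hnR
  have hs4 : 4 ≤ √(n : ℝ) := by
    rw [show (4 : ℝ) = √16 by rw [show (16 : ℝ) = 4 ^ 2 by norm_num]; simp]
    exact Real.sqrt_le_sqrt (by exact_mod_cast h16)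
  have hB0 : 0 ≤ nB K := Nat.cast_nonneg _
  rcases Set.eq_empty_or_nonempty (evenImagQuadratic K) with he | ⟨F₀, hF₀⟩
  · rw [he]
    simp only [Set.ncard_empty, Nat.cast_zero, zero_mul]
    rw [min_eq_right (by norm_num)]
    have : (0 : ℝ) ≤ 2 * n * 2 ^ (n / 2) := by positivity
    linarith
  have heven : Even n := by
    have h1 := Module.finrank_mul_finrank ℚ F₀ K
    rw [hF₀.1, hn] at h1
    have h2 : finrank F₀ K = n := by omega
    rw [← h2]
    exact hF₀.2.2
  have h := family_lower hc2 hcen hc hc' hn (m := 2) (Or.inl (by norm_num)) hfin.toFinset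
    (by
      intro F hF
      have hF' : F ∈ evenImagQuadratic K := by simpa using hF
      haveI : Algebra.IsQuadraticExtension ℚ F := ⟨hF'.1⟩
      exact ⟨inferInstance, inferInstance, hF'.2.1, hF'.1⟩)
    (α := 1 / (2 * √n)) (κ := 8) (by positivity) (by norm_num)
    (by
      rw [mul_one_div, div_le_one (by positivity)]
      linarith)
    (by
      intro χ h1 h2 _
      have := low_two hc2 hcen (card_aut hn) hn0 heven h1 h2
      rw [one_div, inv_mul_eq_div]
      exact this)
    (by
      intro χ χ' h1 h2 _ h1' h2' _ hne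
      refine (card_pair_one hc2 hcen (card_aut hn) h1 h1' h2 h2' hne).trans (le_of_eq ?_)
      rw [div_pow, mul_pow, Real.sq_sqrt hnR.le]
      field_simp
      norm_num)
  have hcard : (hfin.toFinset.card : ℝ) = (evenImagQuadratic K).ncard := by
    rw [Set.ncard_eq_toFinset_card _ hfin]
  rw [hcard] at h
  norm_num at h ⊢
  exact h

theorem lower_four {n : ℕ} (hn : finrank ℚ K = 2 * n) (h648 : 648 ≤ n) :
    1 / 5184 * min 1 ((fourSixG K ∩ {F | finrank ℚ F = 4}).ncard * (1 / (2 * (n : ℝ)))) * 2 ^ n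
      ≤ nB K + 2 * n * 2 ^ (n / 2) := by
  classical
  obtain ⟨φ⟩ : Nonempty (K →+* ℂ) := inferInstance
  obtain ⟨c, hc2, hcen, hc, hc'⟩ := exists_c φ
  have hfinF := finite_intermediateField (K := K)
  have hfin : (fourSixG K ∩ {F | finrank ℚ F = 4}).Finite := Set.toFinite _
  have hn0 : 0 < n := by omega
  have hnR : (0 : ℝ) < n := by exact_mod_cast hn0
  have hnR' : (648 : ℝ) ≤ n := by exact_mod_cast h648
  have hB0 : 0 ≤ nB K := Nat.cast_nonneg _
  rcases Set.eq_empty_or_nonempty (fourSixG K ∩ {F | finrank ℚ F = 4}) with he | ⟨F₀, hF₀⟩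
  · rw [he]
    simp only [Set.ncard_empty, Nat.cast_zero, zero_mul]
    rw [min_eq_right (by norm_num)]
    have : (0 : ℝ) ≤ 2 * n * 2 ^ (n / 2) := by positivity
    linarith
  have hdvd : 4 ∣ n := by
    obtain ⟨⟨-, -, -, h1⟩, h2⟩ := hF₀
    have h2' : finrank ℚ F₀ = 4 := h2
    rcases h1 with ⟨-, h3⟩ | h3
    · have h4 := Module.finrank_mul_finrank ℚ F₀ K
      rw [h2', hn] at h4
      obtain ⟨r, hr⟩ := h3
      omega
    · omega
  have h := family_lower hc2 hcen hc hc' hn (m := 4) (Or.inl (by norm_num)) hfin.toFinset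
    (by
      intro F hF
      have hF' : F ∈ fourSixG K ∩ {F | finrank ℚ F = 4} := by simpa using hF
      exact ⟨hF'.1.1, hF'.1.2.1, hF'.1.2.2.1, hF'.2⟩)
    (α := 1 / (2 * n)) (κ := 1296) (by positivity) (by norm_num)
    (by
      rw [mul_one_div, div_le_one (by positivity)]
      linarith)
    (by
      intro χ h1 h2 h3
      have := low_four hc2 hcen (card_aut hn) hn0 hdvd h1 h2 (h3 (by norm_num))
      rw [one_div, inv_mul_eq_div]
      exact this)
    (by
      intro χ χ' h1 h2 h3 h1' h2' h3' hne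
      refine (card_pair_two hc2 hcen (card_aut hn) h1 h1' (m := 4) (by norm_num) (by norm_num) h2 h2'
        (h3 (by norm_num)) (h3' (by norm_num)) hne).trans (le_of_eq ?_)
      field_simp
      norm_num)
  have hcard : (hfin.toFinset.card : ℝ) = (fourSixG K ∩ {F | finrank ℚ F = 4}).ncard := by
    rw [Set.ncard_eq_toFinset_card _ hfin]
  rw [hcard] at h
  norm_num at h ⊢
  exact h

theorem lower_six {n : ℕ} (hn : finrank ℚ K = 2 * n) (h648 : 648 ≤ n) :
    1 / 5184 * min 1 ((fourSixG K ∩ {F | finrank ℚ F = 6}).ncard * (1 / (2 * (n : ℝ)))) * 2 ^ n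
      ≤ nB K + 2 * n * 2 ^ (n / 2) := by
  classical
  obtain ⟨φ⟩ : Nonempty (K →+* ℂ) := inferInstance
  obtain ⟨c, hc2, hcen, hc, hc'⟩ := exists_c φ
  have hfinF := finite_intermediateField (K := K)
  have hfin : (fourSixG K ∩ {F | finrank ℚ F = 6}).Finite := Set.toFinite _
  have hn0 : 0 < n := by omega
  have hnR : (0 : ℝ) < n := by exact_mod_cast hn0
  have hnR' : (648 : ℝ) ≤ n := by exact_mod_cast h648
  have h := family_lower hc2 hcen hc hc' hn (m := 6) (Or.inr (by norm_num)) hfin.toFinset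
    (by
      intro F hF
      have hF' : F ∈ fourSixG K ∩ {F | finrank ℚ F = 6} := by simpa using hF
      exact ⟨hF'.1.1, hF'.1.2.1, hF'.1.2.2.1, hF'.2⟩)
    (α := 1 / (2 * n)) (κ := 1296) (by positivity) (by norm_num)
    (by
      rw [mul_one_div, div_le_one (by positivity)]
      linarith)
    (by
      intro χ h1 h2 h3
      have := low_six hc2 hcen (card_aut hn) hn0 h1 h2 (h3 (by norm_num))
      rw [one_div, inv_mul_eq_div]
      exact this)
    (by
      intro χ χ' h1 h2 h3 h1' h2' h3' hne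
      refine (card_pair_two hc2 hcen (card_aut hn) h1 h1' (m := 6) (by norm_num) (by norm_num) h2 h2'
        (h3 (by norm_num)) (h3' (by norm_num)) hne).trans (le_of_eq ?_)
      field_simp
      norm_num)
  have hcard : (hfin.toFinset.card : ℝ) = (fourSixG K ∩ {F | finrank ℚ F = 6}).ncard := by
    rw [Set.ncard_eq_toFinset_card _ hfin]
  rw [hcard] at h
  norm_num at h ⊢
  exact h

/-- The lower bound. -/
theorem gal_lower {n : ℕ} (hn : finrank ℚ K = 2 * n) (h648 : 648 ≤ n) :
    1 / 62208 * min 1 ((evenImagQuadratic K).ncard / √n + (fourSixG K).ncard / n) * 2 ^ n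
      ≤ nB K := by
  have hn0 : 0 < n := by omega
  have hnR : (0 : ℝ) < n := by exact_mod_cast hn0
  have hs : 0 < √(n : ℝ) := Real.sqrt_pos.2 hnR
  have hfinF := finite_intermediateField (K := K)
  set a := (evenImagQuadratic K).ncard with ha
  set b := (fourSixG K ∩ {F | finrank ℚ F = 4}).ncard with hb
  set d := (fourSixG K ∩ {F | finrank ℚ F = 6}).ncard with hd
  have ht : ((fourSixG K).ncard : ℝ) ≤ b + d := by
    have h1 : fourSixG K ⊆ (fourSixG K ∩ {F | finrank ℚ F = 4}) ∪
        (fourSixG K ∩ {F | finrank ℚ F = 6}) := by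
      intro F hF
      rcases hF.2.2.2 with h | h
      · exact Or.inl ⟨hF, h.1⟩
      · exact Or.inr ⟨hF, h⟩
    exact_mod_cast (Set.ncard_le_ncard h1 (Set.toFinite _)).trans (Set.ncard_union_le _ _)
  have ht' : (b : ℝ) ≤ (fourSixG K).ncard := by
    exact_mod_cast Set.ncard_le_ncard Set.inter_subset_left (Set.toFinite _)
  have hB0 : 0 ≤ nB K := Nat.cast_nonneg _
  have h2n : (0 : ℝ) < 2 ^ n := by positivity
  -- the three bounds
  have e1 := lower_two hn (by omega)
  have e2 := lower_four hn h648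
  have e3 := lower_six hn h648
  rw [← ha] at e1
  rw [← hb] at e2
  rw [← hd] at e3
  set E : ℝ := 2 * n * 2 ^ (n / 2) with hE
  have f1 : 1 / 10368 * min 1 ((a : ℝ) / √n) * 2 ^ n ≤ nB K + E := by
    have h1 := min_half (x := (a : ℝ) / √n)
    have h2 : (a : ℝ) / √n * (1 / 2) = a * (1 / (2 * √n)) := by field_simp
    rw [h2] at h1
    have h3 : 0 ≤ min 1 ((a : ℝ) / √n) := le_min zero_le_one (by positivity)
    refine le_trans ?_ e1
    apply mul_le_mul_of_nonneg_right _ h2n.le
    linarith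
  have f2 : 1 / 10368 * min 1 ((b : ℝ) / n) * 2 ^ n ≤ nB K + E := by
    have h1 := min_half (x := (b : ℝ) / n)
    have h2 : (b : ℝ) / n * (1 / 2) = b * (1 / (2 * n)) := by field_simp
    rw [h2] at h1
    refine le_trans ?_ e2
    apply mul_le_mul_of_nonneg_right _ h2n.le
    linarith
  have f3 : 1 / 10368 * min 1 ((d : ℝ) / n) * 2 ^ n ≤ nB K + E := by
    have h1 := min_half (x := (d : ℝ) / n)
    have h2 : (d : ℝ) / n * (1 / 2) = d * (1 / (2 * n)) := by field_simp
    rw [h2] at h1
    refine le_trans ?_ e3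
    apply mul_le_mul_of_nonneg_right _ h2n.le
    linarith
  have hsum := min_add_le (x := (a : ℝ) / √n) (y := (b : ℝ) / n) (z := (d : ℝ) / n)
    (by positivity) (by positivity) (by positivity)
  set Z := min 1 ((a : ℝ) / √n + (fourSixG K).ncard / n) with hZ
  have hZ1 : Z ≤ min 1 ((a : ℝ) / √n + ((b : ℝ) / n + (d : ℝ) / n)) := by
    rw [hZ]
    apply min_le_min_left
    have : ((fourSixG K).ncard : ℝ) / n ≤ (b : ℝ) / n + (d : ℝ) / n := by
      rw [← add_div]
      gcongr
    linarith
  have hmain : 1 / 31104 * Z * 2 ^ n ≤ nB K + E := by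
    have h1 : Z * 2 ^ n ≤ (min 1 ((a : ℝ) / √n) + (min 1 ((b : ℝ) / n) + min 1 ((d : ℝ) / n)))
        * 2 ^ n := mul_le_mul_of_nonneg_right (hZ1.trans hsum) h2n.le
    nlinarith
  -- the case without fields
  by_cases h0 : a = 0 ∧ (fourSixG K).ncard = 0
  · have : Z = 0 := by
      rw [hZ, h0.1, h0.2]
      simp
    rw [this]
    simpa using hB0
  · have h1 : 1 / (n : ℝ) ≤ Z := by
      rw [hZ]
      have hn1 : (1 : ℝ) ≤ n := by exact_mod_cast hn0
      apply le_min
      · rw [div_le_one hnR]; exact hn1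
      · rcases Nat.eq_zero_or_pos a with h2 | h2
        · have h3 : 1 ≤ (fourSixG K).ncard := by
            rcases Nat.eq_zero_or_pos (fourSixG K).ncard with h4 | h4
            · exact absurd ⟨h2, h4⟩ h0
            · exact h4
          have h4 : (1 : ℝ) ≤ (fourSixG K).ncard := by exact_mod_cast h3
          have h5 : 1 / (n : ℝ) ≤ (fourSixG K).ncard / n := by gcongr
          have h6 : 0 ≤ (a : ℝ) / √n := by positivity
          linarith
        · have h4 : (1 : ℝ) ≤ a := by exact_mod_cast h2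
          have h5 : 1 / (n : ℝ) ≤ (a : ℝ) / √n := by
            have h7 : √(n : ℝ) ≤ n := by
              rw [Real.sqrt_le_left (by positivity)]
              nlinarith
            calc 1 / (n : ℝ) ≤ 1 / √n := one_div_le_one_div_of_le hs h7
              _ ≤ _ := by gcongr
          have h6 : 0 ≤ ((fourSixG K).ncard : ℝ) / n := by positivity
          linarith
    have h2 := err_le (n := n) (by omega)
    have h3 : 1 / 62208 * (1 / (n : ℝ)) * 2 ^ n ≤ 1 / 62208 * Z * 2 ^ n := by gcongr
    have h4 : 1 / 31104 * Z * 2 ^ n = 1 / 62208 * Z * 2 ^ n + 1 / 62208 * Z * 2 ^ n := by ring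
    linarith

end Lower

end Pool.MP43e44c.NA
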